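import Mathlib
import Pool.Agent.MP_15ac55_ag.DefsA

section

/-!
Cycles of `swap p i * τ`; subadditivity of the norm.
-/

set_option autoImplicit false

open Finset Equiv Equiv.Perm

namespace Pool.Agent.MP_15ac55_ag

variable {α : Type} [Fintype α] [DecidableEq α]

lemma permNorm_add_card (σ : Perm α) :
    permNorm σ + Multiset.card σ.cycleType = σ.cycleType.sum := by
  have h1 : σ.support.card ≤ Fintype.card α := card_le_univ _
  have h2 : Multiset.card σ.cycleType ≤ σ.cycleType.sum := by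
    have := Multiset.card_nsmul_le_sum (s := σ.cycleType) (a := 1)
      (fun x hx => (one_lt_of_mem_cycleType hx).le)
    simpa using this
  rw [permNorm, parts_partition, Multiset.card_add, Multiset.card_replicate]
  rw [sum_cycleType] at h2 ⊢
  omega

lemma permNorm_congr {β : Type} [Fintype β] [DecidableEq β] {σ : Perm α} {τ : Perm β}
    (h : σ.cycleType = τ.cycleType) : permNorm σ = permNorm τ := by
  have h1 := permNorm_add_card σ
  have h2 := permNorm_add_card τ
  rw [h] at h1
  omega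

@[simp] lemma permNorm_one : permNorm (1 : Perm α) = 0 := by
  have := permNorm_add_card (1 : Perm α)
  simpa using this

lemma two_mul_card_le (σ : Perm α) : 2 * Multiset.card σ.cycleType ≤ σ.cycleType.sum := by
  have := Multiset.card_nsmul_le_sum (s := σ.cycleType) (a := 2)
    (fun x hx => two_le_of_mem_cycleType hx)
  simpa [mul_comm] using this

lemma permNorm_eq_zero {σ : Perm α} (h : permNorm σ = 0) : σ = 1 := by
  have h1 := permNorm_add_card σ
  have h2 := two_mul_card_le σ
  exact card_cycleType_eq_zero.mp (by omega)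

@[simp] lemma permNorm_inv (σ : Perm α) : permNorm σ⁻¹ = permNorm σ :=
  permNorm_congr (cycleType_inv σ)

@[simp] lemma permNorm_conj (σ g : Perm α) : permNorm (g * σ * g⁻¹) = permNorm σ :=
  permNorm_congr cycleType_conj

lemma permNorm_mul_comm (σ τ : Perm α) : permNorm (σ * τ) = permNorm (τ * σ) := by
  rw [← permNorm_conj (σ * τ) τ]; congr 1; group

lemma permNorm_disjoint {σ τ : Perm α} (h : σ.Disjoint τ) :
    permNorm (σ * τ) = permNorm σ + permNorm τ := by
  have h1 := permNorm_add_card σ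
  have h2 := permNorm_add_card τ
  have h3 := permNorm_add_card (σ * τ)
  rw [h.cycleType_mul, Multiset.card_add, Multiset.sum_add] at h3
  omega

omit [DecidableEq α] in
lemma sameCycle_ind {τ : Perm α} {x y : α} (P : α → Prop) (hx : P x) (hP : ∀ z, P z → P (τ z))
    (h : SameCycle τ x y) : P y := by
  obtain ⟨n, rfl⟩ := h.exists_nat_pow_eq
  induction n with
  | zero => simpa using hx
  | succ n ih => rw [pow_succ', mul_apply]; exact hP _ (ih (by simpa using SameCycle.rfl))

omit [DecidableEq α] in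
lemma sameCycle_mono {τ π : Perm α} (h : ∀ z, SameCycle π z (τ z)) {x y : α}
    (hxy : SameCycle τ x y) : SameCycle π x y :=
  sameCycle_ind (fun z => SameCycle π x z) SameCycle.rfl (fun z hz => hz.trans (h z)) hxy

def orb (τ : Perm α) (x : α) : Finset α := univ.filter fun y => SameCycle τ x y

def len (τ : Perm α) (x : α) : ℕ := (orb τ x).card

@[simp] lemma mem_orb {τ : Perm α} {x y : α} : y ∈ orb τ x ↔ SameCycle τ x y := by simp [orb]

lemma len_pos (τ : Perm α) (x : α) : 0 < len τ x := card_pos.mpr ⟨x, mem_orb.mpr SameCycle.rfl⟩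

lemma orb_congr {τ : Perm α} {x y : α} (h : SameCycle τ x y) : orb τ x = orb τ y := by
  ext z
  simp only [mem_orb]
  exact ⟨fun a => h.symm.trans a, fun a => h.trans a⟩

lemma len_congr {τ : Perm α} {x y : α} (h : SameCycle τ x y) : len τ x = len τ y := by
  rw [len, len, orb_congr h]

lemma merge_key {τ : Perm α} {p i : α} (h : ¬SameCycle τ p i) :
    SameCycle (swap p i * τ) p i := by
  set f : α → ℕ := fun y => if SameCycle (swap p i * τ) p y then 1 else 0 with hf
  have h1 : ∀ x, f (swap p i (τ x)) = f x := fun x => by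
    simp only [hf]
    exact if_congr (sameCycle_apply_right (f := swap p i * τ)) rfl rfl
  have h2 : ∑ x ∈ orb τ p, f (swap p i (τ x)) = ∑ y ∈ orb τ p, f (swap p i y) :=
    sum_equiv τ (by simp) (by simp)
  have hp : p ∈ orb τ p := mem_orb.mpr SameCycle.rfl
  have h3 : ∑ y ∈ (orb τ p).erase p, f (swap p i y) = ∑ y ∈ (orb τ p).erase p, f y := by
    refine sum_congr rfl fun y hy => ?_
    rw [mem_erase, mem_orb] at hy
    rw [swap_apply_of_ne_of_ne hy.1 (fun e : y = i => h (e ▸ hy.2))]
  simp_rw [h1] at h2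
  rw [← add_sum_erase _ _ hp, ← add_sum_erase _ _ hp, h3, swap_apply_left] at h2
  have h4 : f i = 1 := by
    have : f p = 1 := by simp [hf, SameCycle.rfl]
    omega
  by_contra hc
  simp [hf, hc] at h4

lemma merge_le {τ : Perm α} {p i : α} (h : ¬SameCycle τ p i) {x y : α} (hxy : SameCycle τ x y) :
    SameCycle (swap p i * τ) x y := by
  refine sameCycle_mono (fun z => ?_) hxy
  have h1 : SameCycle (swap p i * τ) z (swap p i (τ z)) :=
    (sameCycle_apply_right (f := swap p i * τ)).mpr SameCycle.rfl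
  refine h1.trans ?_
  by_cases e1 : τ z = p
  · rw [e1, swap_apply_left]; exact (merge_key h).symm
  by_cases e2 : τ z = i
  · rw [e2, swap_apply_right]; exact merge_key h
  · rw [swap_apply_of_ne_of_ne e1 e2]

lemma merge_in {τ : Perm α} {p i : α} (h : ¬SameCycle τ p i) {x : α}
    (hx : SameCycle τ p x ∨ SameCycle τ i x) : orb (swap p i * τ) x = orb τ p ∪ orb τ i := by
  have hpx : SameCycle (swap p i * τ) p x :=
    hx.elim (merge_le h) fun a => (merge_key h).trans (merge_le h a)
  rw [← orb_congr hpx]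
  ext y
  simp only [mem_union, mem_orb]
  constructor
  · refine sameCycle_ind (fun z => SameCycle τ p z ∨ SameCycle τ i z) (Or.inl SameCycle.rfl) ?_
    intro z hz
    rw [mul_apply]
    by_cases e1 : τ z = p
    · rw [e1, swap_apply_left]; exact Or.inr SameCycle.rfl
    by_cases e2 : τ z = i
    · rw [e2, swap_apply_right]; exact Or.inl SameCycle.rfl
    · rw [swap_apply_of_ne_of_ne e1 e2]; simpa using hz
  · exact fun hy => hy.elim (merge_le h) fun a => (merge_key h).trans (merge_le h a)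

lemma merge_out {τ : Perm α} {p i : α} (h : ¬SameCycle τ p i) {x : α}
    (hx : ¬(SameCycle τ p x ∨ SameCycle τ i x)) : orb (swap p i * τ) x = orb τ x := by
  ext y
  simp only [mem_orb]
  refine ⟨?_, merge_le h⟩
  refine sameCycle_ind (fun z => SameCycle τ x z) SameCycle.rfl ?_
  intro z hz
  have hz' : SameCycle τ x (τ z) := by simpa using hz
  rw [mul_apply, swap_apply_of_ne_of_ne]
  · exact hz'
  · intro e; exact hx (Or.inl (e ▸ hz').symm)
  · intro e; exact hx (Or.inr (e ▸ hz').symm)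

lemma orb_disjoint {τ : Perm α} {p i : α} (h : ¬SameCycle τ p i) :
    Disjoint (orb τ p) (orb τ i) := by
  rw [disjoint_left]
  intro y h1 h2
  exact h ((mem_orb.mp h1).trans (mem_orb.mp h2).symm)

lemma len_merge {τ : Perm α} {p i : α} (h : ¬SameCycle τ p i) :
    len (swap p i * τ) p = len τ p + len τ i := by
  rw [len, merge_in h (Or.inl SameCycle.rfl), card_union_of_disjoint (orb_disjoint h)]
  rfl

/-- The sum of `g (length)` over all cycles (fixed points included). -/
noncomputable def cycSum (g : ℕ → ℝ) (τ : Perm α) : ℝ := ∑ x, g (len τ x) / len τ x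

lemma sum_orb (g : ℕ → ℝ) (τ : Perm α) (p : α) :
    ∑ x ∈ orb τ p, g (len τ x) / len τ x = g (len τ p) := by
  rw [sum_congr rfl (g := fun _ => g (len τ p) / len τ p)
    (fun x hx => by rw [len_congr (mem_orb.mp hx)]), sum_const, nsmul_eq_mul]
  have := len_pos τ p
  change (len τ p : ℝ) * _ = _
  field_simp

lemma cycSum_merge (g : ℕ → ℝ) {τ : Perm α} {p i : α} (h : ¬SameCycle τ p i) :
    cycSum g (swap p i * τ) + g (len τ p) + g (len τ i)
      = cycSum g τ + g (len τ p + len τ i) := by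
  have h1 := sum_orb g (swap p i * τ) p
  rw [len_merge h, merge_in h (Or.inl SameCycle.rfl)] at h1
  have h2 : ∑ x ∈ orb τ p ∪ orb τ i, g (len τ x) / len τ x = g (len τ p) + g (len τ i) := by
    rw [sum_union (orb_disjoint h), sum_orb, sum_orb]
  have h3 : ∑ x ∈ (orb τ p ∪ orb τ i)ᶜ, g (len (swap p i * τ) x) / len (swap p i * τ) x
      = ∑ x ∈ (orb τ p ∪ orb τ i)ᶜ, g (len τ x) / len τ x := by
    refine sum_congr rfl fun x hx => ?_
    rw [mem_compl, mem_union, mem_orb, mem_orb] at hx
    rw [len, merge_out h hx]; rfl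
  rw [cycSum, cycSum, ← sum_add_sum_compl (orb τ p ∪ orb τ i),
    ← sum_add_sum_compl (orb τ p ∪ orb τ i), h1, h2, h3]
  ring

lemma cycSum_eq (g : ℕ → ℝ) (τ : Perm α) :
    cycSum g τ = (τ.cycleType.map g).sum + (Fintype.card α - τ.support.card : ℝ) * g 1 := by
  rw [cycSum, ← sum_add_sum_compl τ.support]
  congr 1
  · rw [cycleType_def, Multiset.map_map, ← sum_fiberwise_of_maps_to (t := τ.cycleFactorsFinset)
      (g := fun x => τ.cycleOf x) (fun x hx => cycleOf_mem_cycleFactorsFinset_iff.mpr hx)]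
    refine sum_congr rfl fun c hc => ?_
    obtain ⟨p, hp⟩ := (mem_cycleFactorsFinset_iff.mp hc).1.nonempty_support
    have hcp := cycle_is_cycleOf hp hc
    have hp' : p ∈ τ.support := mem_cycleFactorsFinset_support_le hc hp
    have h1 : c.support = orb τ p := by
      ext y
      rw [hcp, mem_support_cycleOf_iff, mem_orb]
      exact and_iff_left hp'
    have h2 : τ.support.filter (fun x => τ.cycleOf x = c) = orb τ p := by
      ext y
      rw [mem_filter, mem_orb]
      constructor
      · rintro ⟨a1, a2⟩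
        rw [← mem_orb, ← h1, ← a2, mem_support_cycleOf_iff]
        exact ⟨SameCycle.rfl, a1⟩
      · intro a
        exact ⟨a.mem_support_iff.mp hp', by rw [hcp, a.cycleOf_eq]⟩
    rw [h2, sum_orb]
    simp [h1, len]
  · rw [sum_congr rfl (g := fun _ => g 1), sum_const, card_compl, nsmul_eq_mul,
      Nat.cast_sub (card_le_univ _)]
    intro x hx
    have h1 : orb τ x = {x} := by
      ext y
      rw [mem_orb, mem_singleton]
      rw [mem_compl, notMem_support] at hx
      exact ⟨fun a => (a.eq_of_left hx).symm, fun a => a ▸ SameCycle.rfl⟩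
    simp [len, h1]

lemma cycSum_one (τ : Perm α) : cycSum (fun _ => 1) τ = Fintype.card α - (permNorm τ : ℝ) := by
  have := permNorm_add_card τ
  rw [sum_cycleType] at this
  rw [cycSum_eq, ← this]
  simp
  ring

lemma cycSum_log (τ : Perm α) :
    cycSum (fun n => Real.log n) τ = Real.log (τ.cycleType.prod : ℕ) := by
  rw [cycSum_eq]
  have : ∀ m : Multiset ℕ, (∀ a ∈ m, a ≠ 0) →
      (m.map fun n : ℕ => Real.log n).sum = Real.log (m.prod : ℕ) := by
    intro m
    induction m using Multiset.induction_on with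
    | empty => simp
    | cons a m ih =>
      intro h
      have h1 : a ≠ 0 := h a (Multiset.mem_cons_self _ _)
      have h2 : ∀ b ∈ m, b ≠ 0 := fun b hb => h b (Multiset.mem_cons_of_mem hb)
      have h3 : m.prod ≠ 0 := Multiset.prod_ne_zero fun a => h2 0 a rfl
      rw [Multiset.map_cons, Multiset.sum_cons, ih h2, Multiset.prod_cons, Nat.cast_mul,
        Real.log_mul (by exact_mod_cast h1) (by exact_mod_cast h3)]
  rw [this _ fun a ha => by have := two_le_of_mem_cycleType ha; omega]
  simp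

lemma prod_pos (τ : Perm α) : 0 < τ.cycleType.prod :=
  Nat.pos_of_ne_zero (Multiset.prod_ne_zero fun a => by
    have := two_le_of_mem_cycleType a; omega)

lemma permNorm_merge {τ : Perm α} {p i : α} (h : ¬SameCycle τ p i) :
    permNorm (swap p i * τ) = permNorm τ + 1 := by
  have := cycSum_merge (fun _ => 1) h
  rw [cycSum_one, cycSum_one] at this
  have h2 : (permNorm (swap p i * τ) : ℝ) = permNorm τ + 1 := by linarith
  exact_mod_cast h2

lemma prod_merge {τ : Perm α} {p i : α} (h : ¬SameCycle τ p i) :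
    (swap p i * τ).cycleType.prod * (len τ p * len τ i)
      = τ.cycleType.prod * (len τ p + len τ i) := by
  have := cycSum_merge (fun n => Real.log n) h
  rw [cycSum_log, cycSum_log] at this
  have h1 : (0 : ℝ) < ((swap p i * τ).cycleType.prod : ℕ) := by exact_mod_cast prod_pos _
  have h2 : (0 : ℝ) < (τ.cycleType.prod : ℕ) := by exact_mod_cast prod_pos _
  have h3 : (0 : ℝ) < len τ p := by exact_mod_cast len_pos _ _
  have h4 : (0 : ℝ) < len τ i := by exact_mod_cast len_pos _ _
  have h5 : (0 : ℝ) < (len τ p + len τ i : ℕ) := by push_cast; positivity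
  rw [← Real.log_mul h1.ne' h3.ne', ← Real.log_mul (by positivity) h4.ne',
    ← Real.log_mul h2.ne' h5.ne'] at this
  have h6 := Real.log_injOn_pos (by simp only [Set.mem_Ioi]; positivity)
    (by simp only [Set.mem_Ioi]; positivity) this
  rw [← mul_assoc]
  exact_mod_cast h6

lemma permNorm_swap_mul_le {τ : Perm α} {p i : α} (h : SameCycle τ p i) :
    permNorm (swap p i * τ) ≤ permNorm τ := by
  have h1 : ∀ x, len (swap p i * τ) x ≤ len τ x := by
    intro x
    refine card_le_card fun y hy => mem_orb.mpr (sameCycle_mono (fun z => ?_) (mem_orb.mp hy))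
    have h2 : SameCycle τ z (τ z) := by simpa using SameCycle.rfl
    rw [mul_apply]
    by_cases e1 : τ z = p
    · rw [e1, swap_apply_left]; exact (e1 ▸ h2).trans h
    by_cases e2 : τ z = i
    · rw [e2, swap_apply_right]; exact (e2 ▸ h2).trans h.symm
    · rwa [swap_apply_of_ne_of_ne e1 e2]
  have h2 : cycSum (fun _ => 1) τ ≤ cycSum (fun _ => 1) (swap p i * τ) := by
    refine sum_le_sum fun x _ => ?_
    exact one_div_le_one_div_of_le (by exact_mod_cast len_pos _ _) (by exact_mod_cast h1 x)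
  rw [cycSum_one, cycSum_one] at h2
  have h3 : (permNorm (swap p i * τ) : ℝ) ≤ permNorm τ := by linarith
  exact_mod_cast h3

lemma permNorm_swap_mul_iff {τ : Perm α} {p i : α} :
    permNorm (swap p i * τ) = permNorm τ + 1 ↔ ¬SameCycle τ p i :=
  ⟨fun h hc => by have := permNorm_swap_mul_le hc; omega, permNorm_merge⟩

lemma permNorm_swap_mul_le' (τ : Perm α) (p i : α) :
    permNorm (swap p i * τ) ≤ permNorm τ + 1 := by
  by_cases h : SameCycle τ p i
  · exact (permNorm_swap_mul_le h).trans (Nat.le_succ _)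
  · exact (permNorm_merge h).le

lemma exists_swap_mul {σ : Perm α} (h : σ ≠ 1) :
    ∃ p i σ', σ = swap p i * σ' ∧ permNorm σ = permNorm σ' + 1 := by
  obtain ⟨x, hx⟩ : ∃ x, σ x ≠ x := by
    by_contra hc
    push Not at hc
    exact h (Equiv.ext hc)
  have h1 : σ = swap x (σ x) * (swap x (σ x) * σ) := by rw [swap_mul_self_mul]
  refine ⟨x, σ x, swap x (σ x) * σ, h1, ?_⟩
  conv_lhs => rw [h1]
  refine permNorm_merge fun hc => hx (hc.eq_of_left ?_).symm
  simp [Function.IsFixedPt]

lemma permNorm_mul_aux (τ : Perm α) (n : ℕ) : ∀ σ : Perm α, permNorm σ = n →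
    permNorm (σ * τ) ≤ permNorm σ + permNorm τ ∧
      (permNorm (σ * τ) = permNorm σ + permNorm τ →
        ∀ x y, SameCycle τ x y → SameCycle (σ * τ) x y) := by
  induction n with
  | zero =>
    intro σ h
    rw [permNorm_eq_zero h]
    simp
  | succ n ih =>
    intro σ h
    obtain ⟨p, i, σ', rfl, h2⟩ := exists_swap_mul (σ := σ) (by rintro rfl; simp at h)
    obtain ⟨h3, h4⟩ := ih σ' (by omega)
    have h5 := permNorm_swap_mul_le' (σ' * τ) p i
    rw [mul_assoc]
    refine ⟨by omega, fun h6 x y hxy => ?_⟩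
    exact merge_le (permNorm_swap_mul_iff.mp (by omega)) (h4 (by omega) x y hxy)

lemma permNorm_mul_le (σ τ : Perm α) : permNorm (σ * τ) ≤ permNorm σ + permNorm τ :=
  (permNorm_mul_aux τ _ σ rfl).1

lemma sameCycle_of_add {σ τ : Perm α} (h : permNorm σ + permNorm τ = permNorm (σ * τ)) {x y : α}
    (hxy : SameCycle τ x y) : SameCycle (σ * τ) x y :=
  (permNorm_mul_aux τ _ σ rfl).2 h.symm x y hxy

lemma fixed_of_add {σ τ : Perm α} (h : permNorm σ + permNorm τ = permNorm (σ * τ)) {x : α}
    (hx : (σ * τ) x = x) : τ x = x ∧ σ x = x := by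
  have h1 : τ x = x :=
    ((sameCycle_of_add h (x := x) (y := τ x) (by simpa using SameCycle.rfl)).eq_of_left hx).symm
  refine ⟨h1, ?_⟩
  rwa [mul_apply, h1] at hx

end Pool.Agent.MP_15ac55_ag

end

section

/-!
Ring axioms for the graded product; restriction to subsets; peeling off a transposition.
-/

set_option autoImplicit false

open Finset Equiv Equiv.Perm

namespace Pool.Agent.MP_15ac55_ag

variable {α : Type} [Fintype α] [DecidableEq α]

lemma cocycle (σ τ ρ : Perm α) :
    (permNorm (σ * τ) + permNorm ρ = permNorm (σ * τ * ρ) ∧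
      permNorm σ + permNorm τ = permNorm (σ * τ)) ↔
    (permNorm σ + permNorm (τ * ρ) = permNorm (σ * τ * ρ) ∧
      permNorm τ + permNorm ρ = permNorm (τ * ρ)) := by
  have h1 := permNorm_mul_le σ τ
  have h2 := permNorm_mul_le τ ρ
  have h3 := permNorm_mul_le (σ * τ) ρ
  have h4 := permNorm_mul_le σ (τ * ρ)
  rw [← mul_assoc] at h4
  omega

lemma grMul_assoc (f g h : Perm α → ℚ) : grMul (grMul f g) h = grMul f (grMul g h) := by
  funext π
  simp only [grMul]
  have e1 : ∀ x : Perm α, (if permNorm x + permNorm (x⁻¹ * π) = permNorm π then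
      (∑ σ, if permNorm σ + permNorm (σ⁻¹ * x) = permNorm x then f σ * g (σ⁻¹ * x) else 0)
        * h (x⁻¹ * π) else 0)
      = ∑ σ, if (permNorm x + permNorm (x⁻¹ * π) = permNorm π ∧
          permNorm σ + permNorm (σ⁻¹ * x) = permNorm x) then f σ * g (σ⁻¹ * x) * h (x⁻¹ * π)
          else 0 := by
    intro x
    split_ifs with hx
    · simp [hx, sum_mul]
    · simp [hx]
  simp_rw [e1]
  rw [sum_comm]
  refine sum_congr rfl fun σ _ => ?_
  rw [← Equiv.sum_comp (Equiv.mulLeft σ)]
  have e2 : ∀ τ : Perm α,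
      (permNorm (σ * τ) + permNorm ((σ * τ)⁻¹ * π) = permNorm π ∧
        permNorm σ + permNorm τ = permNorm (σ * τ)) ↔
      (permNorm σ + permNorm (σ⁻¹ * π) = permNorm π ∧
        permNorm τ + permNorm (τ⁻¹ * (σ⁻¹ * π)) = permNorm (σ⁻¹ * π)) := by
    intro τ
    have := cocycle σ τ (τ⁻¹ * (σ⁻¹ * π))
    simpa [mul_assoc] using this
  simp only [coe_mulLeft, inv_mul_cancel_left, e2]
  split_ifs with hσ
  · simp [hσ, mul_sum, mul_assoc]
  · simp [hσ]

lemma grMul_one_left (f : Perm α → ℚ) : grMul (Pi.single 1 1) f = f := by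
  funext π
  rw [grMul, sum_eq_single 1]
  · simp
  · intro σ _ h; simp [h]
  · simp

lemma grMul_one_right (f : Perm α → ℚ) : grMul f (Pi.single 1 1) = f := by
  funext π
  rw [grMul, sum_eq_single π]
  · simp
  · intro σ _ h
    have : σ⁻¹ * π ≠ 1 := fun e => h (inv_mul_eq_one.mp e)
    simp [this]
  · simp

lemma grMul_add_left (f f' g : Perm α → ℚ) : grMul (f + f') g = grMul f g + grMul f' g := by
  funext π
  simp only [grMul, Pi.add_apply, ← sum_add_distrib]
  refine sum_congr rfl fun σ _ => ?_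
  split_ifs <;> ring

lemma grMul_add_right (f g g' : Perm α → ℚ) : grMul f (g + g') = grMul f g + grMul f g' := by
  funext π
  simp only [grMul, Pi.add_apply, ← sum_add_distrib]
  refine sum_congr rfl fun σ _ => ?_
  split_ifs <;> ring

lemma grMul_smul_left (c : ℚ) (f g : Perm α → ℚ) : grMul (c • f) g = c • grMul f g := by
  funext π
  simp only [grMul, Pi.smul_apply, smul_eq_mul, mul_sum]
  refine sum_congr rfl fun σ _ => ?_
  split_ifs <;> ring

lemma grMul_smul_right (c : ℚ) (f g : Perm α → ℚ) : grMul f (c • g) = c • grMul f g := by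
  funext π
  simp only [grMul, Pi.smul_apply, smul_eq_mul, mul_sum]
  refine sum_congr rfl fun σ _ => ?_
  split_ifs <;> ring

lemma grMul_zero_left (g : Perm α → ℚ) : grMul 0 g = 0 := by
  funext π; simp [grMul]

lemma grMul_zero_right (f : Perm α → ℚ) : grMul f 0 = 0 := by
  funext π; simp [grMul]

lemma grMul_sum_left {ι : Type} (s : Finset ι) (f : ι → Perm α → ℚ) (g : Perm α → ℚ) :
    grMul (∑ i ∈ s, f i) g = ∑ i ∈ s, grMul (f i) g := by
  classical
  induction s using Finset.induction_on with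
  | empty => simp [grMul_zero_left]
  | insert a s ha ih => rw [sum_insert ha, sum_insert ha, grMul_add_left, ih]

lemma grMul_conj {f g : Perm α → ℚ} (hf : ∀ x σ, f (x * σ * x⁻¹) = f σ)
    (hg : ∀ x σ, g (x * σ * x⁻¹) = g σ) (x π : Perm α) :
    grMul f g (x * π * x⁻¹) = grMul f g π := by
  simp only [grMul]
  rw [← Equiv.sum_comp (MulAut.conj x).toEquiv]
  refine sum_congr rfl fun σ _ => ?_
  have e : (x * σ * x⁻¹)⁻¹ * (x * π * x⁻¹) = x * (σ⁻¹ * π) * x⁻¹ := by group
  simp only [MulEquiv.toEquiv_eq_coe, EquivLike.coe_coe, MulAut.conj_apply, e, permNorm_conj, hf,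
    hg]

lemma grMul_comm {f : Perm α → ℚ} (hf : ∀ x σ, f (x * σ * x⁻¹) = f σ) (g : Perm α → ℚ) :
    grMul f g = grMul g f := by
  funext π
  simp only [grMul]
  refine sum_equiv ((Equiv.inv _).trans (Equiv.mulRight π)) (by simp) fun σ _ => ?_
  have e : (σ⁻¹ * π)⁻¹ * π = π⁻¹ * σ * π⁻¹⁻¹ := by group
  simp only [Equiv.trans_apply, Equiv.inv_apply, coe_mulRight, e, permNorm_conj, hf, add_comm,
    mul_comm]

lemma single_conj (x σ : Perm α) :
    (Pi.single 1 1 : Perm α → ℚ) (x * σ * x⁻¹) = (Pi.single 1 1 : Perm α → ℚ) σ := by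
  simp only [Pi.single_apply]
  refine if_congr ?_ rfl rfl
  simp

lemma sum_grMul (f g h : Perm α → ℚ) : ∑ π, grMul f g π * h π = ∑ τ, g τ *
    ∑ σ, if permNorm σ + permNorm τ = permNorm (σ * τ) then f σ * h (σ * τ) else 0 := by
  simp only [grMul, sum_mul, mul_sum]
  rw [sum_comm, sum_comm (f := fun τ σ => g τ * _)]
  refine sum_congr rfl fun σ _ => ?_
  rw [← Equiv.sum_comp (Equiv.mulLeft σ)]
  refine sum_congr rfl fun τ _ => ?_
  simp only [coe_mulLeft, inv_mul_cancel_left]
  split_ifs <;> ring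

lemma grMul_ne_zero {f g : Perm α → ℚ} {π : Perm α} (h : grMul f g π ≠ 0) :
    ∃ σ τ, π = σ * τ ∧ permNorm σ + permNorm τ = permNorm π ∧ f σ ≠ 0 ∧ g τ ≠ 0 := by
  obtain ⟨σ, -, hσ⟩ := exists_ne_zero_of_sum_ne_zero h
  split_ifs at hσ with h1
  · exact ⟨σ, σ⁻¹ * π, by simp, h1, left_ne_zero_of_mul hσ, right_ne_zero_of_mul hσ⟩
  · exact absurd rfl hσ

lemma grMul_extendDomain {β : Type} [Fintype β] [DecidableEq β] {p : β → Prop} [DecidablePred p]
    (e : α ≃ Subtype p) (f g : Perm β → ℚ) (π : Perm α) :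
    grMul f g (π.extendDomain e)
      = grMul (fun σ => f (σ.extendDomain e)) (fun σ => g (σ.extendDomain e)) π := by
  simp only [grMul]
  have hN : ∀ σ : Perm α, permNorm (σ.extendDomain e) = permNorm σ := fun σ =>
    permNorm_congr (cycleType_extendDomain e)
  symm
  refine sum_of_injOn (fun σ => σ.extendDomain e) (extendDomainHom_injective e).injOn (by simp)
    ?_ ?_
  · intro σ _ hσ
    rw [if_neg]
    intro h
    refine hσ ?_
    have h1 : ∀ x, ¬p x → σ x = x := fun x hx => by
      refine (fixed_of_add (τ := σ⁻¹ * π.extendDomain e) (by simpa using h) ?_).2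
      rw [mul_inv_cancel_left, extendDomain_apply_not_subtype _ _ hx]
    have h2 : ∀ x, p (σ x) ↔ p x := fun x => by
      by_cases hx : p x
      · refine iff_of_true ?_ hx
        by_contra hc
        have := σ.injective (h1 _ hc)
        exact hc (this.symm ▸ hx)
      · rw [h1 x hx]
    refine ⟨e.symm.permCongr (σ.subtypePerm h2), by simp, ?_⟩
    ext x
    by_cases hx : p x
    · simp [extendDomain_apply_subtype _ _ hx]
    · simp [extendDomain_apply_not_subtype _ _ hx, h1 x hx]
  · intro σ _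
    rw [extendDomain_inv, extendDomain_mul, hN, hN, hN]

omit [Fintype α] in
lemma disjoint_swap {ρ : Perm α} {a b : α} (ha : ρ a = a) (hb : ρ b = b) :
    ρ.Disjoint (swap a b) := by
  intro x
  by_cases e1 : x = a
  · exact Or.inl (e1 ▸ ha)
  by_cases e2 : x = b
  · exact Or.inl (e2 ▸ hb)
  · exact Or.inr (swap_apply_of_ne_of_ne e1 e2)

lemma permNorm_mul_swap {ρ : Perm α} {a b : α} (hab : a ≠ b) (ha : ρ a = a) :
    permNorm (ρ * swap a b) = permNorm ρ + 1 := by
  rw [permNorm_mul_comm]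
  exact permNorm_merge fun h => hab (h.eq_of_left ha)

lemma cycleType_mul_swap {ρ : Perm α} {a b : α} (hab : a ≠ b) (ha : ρ a = a) (hb : ρ b = b) :
    (ρ * swap a b).cycleType = 2 ::ₘ ρ.cycleType := by
  rw [(disjoint_swap ha hb).cycleType_mul, isSwap_iff_cycleType.mp ⟨a, b, hab, rfl⟩, add_comm,
    Multiset.singleton_add]

lemma grMul_peel (f g : Perm α → ℚ) {π : Perm α} {a b : α} (hab : a ≠ b) (ha : π a = a)
    (hb : π b = b) : grMul f g (π * swap a b)
      = grMul f (fun τ => g (τ * swap a b)) π + grMul (fun σ => f (σ * swap a b)) g π := by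
  have hπ := permNorm_mul_swap hab ha
  have hB : ∀ σ : Perm α, permNorm σ + permNorm (σ⁻¹ * π) = permNorm π →
      (σ a = a ∧ σ b = b) ∧ (σ⁻¹ * π) a = a ∧ (σ⁻¹ * π) b = b := by
    intro σ h
    have h1 := fixed_of_add (σ := σ) (τ := σ⁻¹ * π) (x := a) (by simpa using h) (by simpa using ha)
    have h2 := fixed_of_add (σ := σ) (τ := σ⁻¹ * π) (x := b) (by simpa using h) (by simpa using hb)
    exact ⟨⟨h1.2, h2.2⟩, h1.1, h2.1⟩
  have hA : ∀ σ : Perm α, permNorm σ + permNorm (σ⁻¹ * (π * swap a b)) = permNorm (π * swap a b) →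
      (σ⁻¹ b = a ∨ σ⁻¹ b = b) ∧ (σ⁻¹ a = a ∨ σ⁻¹ a = b) := by
    intro σ h
    have key : ∀ x y, (x = a ∨ x = b) → SameCycle (σ⁻¹ * (π * swap a b)) x y → y = a ∨ y = b := by
      intro x y hx hxy
      have h1 := sameCycle_of_add (σ := σ) (τ := σ⁻¹ * (π * swap a b)) (by simpa using h) hxy
      rw [mul_inv_cancel_left] at h1
      refine sameCycle_ind (fun z => z = a ∨ z = b) hx ?_ h1
      rintro z (rfl | rfl)
      · simp [hb]
      · simp [ha]
    have k1 := key a _ (Or.inl rfl) (sameCycle_apply_right.mpr SameCycle.rfl)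
    have k2 := key b _ (Or.inr rfl) (sameCycle_apply_right.mpr SameCycle.rfl)
    simp only [mul_apply, swap_apply_left, swap_apply_right, ha, hb] at k1 k2
    exact ⟨k1, k2⟩
  have hcomm : ∀ ρ : Perm α, ρ a = a → ρ b = b → swap a b * ρ * swap a b = ρ := by
    intro ρ h1 h2
    rw [← (disjoint_swap h1 h2).commute.eq, mul_assoc, swap_mul_self, mul_one]
  have e0 : ∀ σ : Perm α, (σ * swap a b)⁻¹ * (π * swap a b) = swap a b * (σ⁻¹ * π) * swap a b := by
    intro σ; rw [mul_inv_rev, swap_inv]; group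
  have h1 : ∀ σ : Perm α,
      (permNorm σ + permNorm (σ⁻¹ * (π * swap a b)) = permNorm (π * swap a b) ∧ σ a = a) ↔
      permNorm σ + permNorm (σ⁻¹ * π) = permNorm π := by
    intro σ
    constructor
    · rintro ⟨h, h2⟩
      have h3 : (σ⁻¹ * π) a = a := by rw [mul_apply, ha, inv_eq_iff_eq, h2]
      rw [← mul_assoc, permNorm_mul_swap hab h3, hπ] at h
      omega
    · intro h
      obtain ⟨⟨h2, -⟩, h3, -⟩ := hB σ h
      rw [← mul_assoc, permNorm_mul_swap hab h3, hπ]
      exact ⟨by omega, h2⟩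
  have h2 : ∀ σ : Perm α,
      (permNorm (σ * swap a b) + permNorm ((σ * swap a b)⁻¹ * (π * swap a b))
        = permNorm (π * swap a b) ∧ ¬(σ * swap a b) a = a) ↔
      permNorm σ + permNorm (σ⁻¹ * π) = permNorm π := by
    intro σ
    have hN : permNorm ((σ * swap a b)⁻¹ * (π * swap a b)) = permNorm (σ⁻¹ * π) := by
      rw [e0]
      simpa using permNorm_conj (σ⁻¹ * π) (swap a b)
    constructor
    · rintro ⟨h, h2⟩
      obtain ⟨k1, k2⟩ := hA _ h
      simp only [inv_eq_iff_eq, mul_apply, swap_apply_left, swap_apply_right] at k1 k2 h2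
      have k3 : σ a = a := (k2.resolve_left fun e => h2 e.symm).symm
      rw [hN, permNorm_mul_swap hab k3, hπ] at h
      omega
    · intro h
      obtain ⟨⟨h2, h3⟩, -⟩ := hB σ h
      rw [hN, permNorm_mul_swap hab h2, hπ]
      refine ⟨by omega, ?_⟩
      rw [mul_apply, swap_apply_left, h3]
      exact hab.symm
  simp only [grMul]
  rw [← sum_filter_add_sum_filter_not univ (fun σ : Perm α => σ a = a), sum_filter, sum_filter]
  congr 1
  · refine sum_congr rfl fun σ _ => ?_
    rw [← ite_and, mul_assoc]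
    exact if_congr (and_comm.trans (h1 σ)) rfl rfl
  · rw [← Equiv.sum_comp (Equiv.mulRight (swap a b))]
    refine sum_congr rfl fun σ _ => ?_
    rw [← ite_and, coe_mulRight]
    refine if_ctx_congr (and_comm.trans (h2 σ)) (fun h => ?_) (fun _ => rfl)
    obtain ⟨-, h3, h4⟩ := hB σ h
    rw [e0, hcomm _ h3 h4]

end Pool.Agent.MP_15ac55_ag

end

section

/-!
The algebra `A(d)`, its generators `δ_i`, and the number of minimal relations.
-/

set_option autoImplicit false

namespace Pool.Agent.MP_15ac55_ag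

/-- `A(d)` as a vector space: the span of the conjugacy class sums, i.e. the elements
`∑ f(σ) [σ]` whose coefficient function `f` is a class function. -/
def classFun (d : ℕ) : Submodule ℚ (Equiv.Perm (Fin d) → ℚ) where
  carrier := {f | ∀ x σ, f (x * σ * x⁻¹) = f σ}
  add_mem' := fun hf hg x σ => by simp only [Pi.add_apply, hf x σ, hg x σ]
  zero_mem' := fun _ _ => rfl
  smul_mem' := fun c f hf x σ => by simp only [Pi.smul_apply, hf x σ]

/-- `A(d)` as a commutative ring, for the graded product. -/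
instance instCommRingClassFun (d : ℕ) : CommRing (classFun d) :=
  { (classFun d).addCommGroup with
    mul := fun f g => ⟨grMul f.1 g.1, fun x σ => grMul_conj f.2 g.2 x σ⟩
    one := ⟨Pi.single 1 1, fun x σ => single_conj x σ⟩
    mul_assoc := fun f g h => Subtype.ext (grMul_assoc f.1 g.1 h.1)
    one_mul := fun f => Subtype.ext (grMul_one_left f.1)
    mul_one := fun f => Subtype.ext (grMul_one_right f.1)
    zero_mul := fun f => Subtype.ext (grMul_zero_left f.1)
    mul_zero := fun f => Subtype.ext (grMul_zero_right f.1)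
    left_distrib := fun f g h => Subtype.ext (grMul_add_right f.1 g.1 h.1)
    right_distrib := fun f g h => Subtype.ext (grMul_add_left f.1 g.1 h.1)
    mul_comm := fun f g => Subtype.ext (grMul_comm f.2 g.1) }

/-- `A(d)` as a `ℚ`-algebra. -/
noncomputable instance instAlgebraClassFun (d : ℕ) : Algebra ℚ (classFun d) :=
  Algebra.ofModule (fun c f g => Subtype.ext (grMul_smul_left c f.1 g.1))
    (fun c f g => Subtype.ext (grMul_smul_right c f.1 g.1))

/-- `δ_i(d)`: the sum of all products of exactly `i` disjoint transpositions. -/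
def delta (d i : ℕ) : classFun d :=
  ⟨fun σ => if σ.cycleType = Multiset.replicate i 2 then 1 else 0,
    fun x σ => by simp only [Equiv.Perm.cycleType_conj]⟩

/-- `φ_d : ℚ[X_1, …, X_m] → A(d)`, `m = ⌊d/2⌋`; the variable of index `i : Fin m` is `X_{i+1}`. -/
noncomputable def phi (d : ℕ) : MvPolynomial (Fin (d / 2)) ℚ →ₐ[ℚ] classFun d :=
  MvPolynomial.aeval fun i => delta d (i.val + 1)

/-- `𝔯_{d,n}`: the dimension of the degree `n` part of `I_d / P₊ I_d`, i.e. of the image of
`(I_d)_n` in `P / P₊ I_d`. -/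
noncomputable def minRel (d n : ℕ) : ℕ :=
  Module.finrank ℚ (Submodule.map
    (Ideal.Quotient.mkₐ ℚ
      (RingHom.ker (MvPolynomial.constantCoeff : MvPolynomial (Fin (d / 2)) ℚ →+* ℚ)
        * RingHom.ker (phi d))).toLinearMap
    ((RingHom.ker (phi d)).restrictScalars ℚ ⊓
      MvPolynomial.weightedHomogeneousSubmodule ℚ (fun i : Fin (d / 2) => i.val + 1) n))

end Pool.Agent.MP_15ac55_ag

end

section

/-!
The stable algebra: compatible families of class functions.
-/

set_option autoImplicit false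

open Finset Equiv Equiv.Perm

namespace Pool.Agent.MP_15ac55_ag

def Valid (μ : Multiset ℕ) : Prop := ∀ a ∈ μ, 2 ≤ a

def nrm (μ : Multiset ℕ) : ℕ := μ.sum - Multiset.card μ

lemma valid_type {d : ℕ} (σ : Perm (Fin d)) : Valid σ.cycleType := fun _ h =>
  two_le_of_mem_cycleType h

lemma nrm_type {d : ℕ} (σ : Perm (Fin d)) : nrm σ.cycleType = permNorm σ := by
  have := permNorm_add_card σ
  rw [nrm]; omega

lemma Valid.two_mul_card_le {μ : Multiset ℕ} (h : Valid μ) : 2 * Multiset.card μ ≤ μ.sum := by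
  have := Multiset.card_nsmul_le_sum (s := μ) (a := 2) h
  simpa [mul_comm] using this

lemma Valid.exists_perm {μ : Multiset ℕ} (h : Valid μ) {d : ℕ} (hd : μ.sum ≤ d) :
    ∃ σ : Perm (Fin d), σ.cycleType = μ :=
  (exists_with_cycleType_iff (Fin d)).mpr ⟨by simpa using hd, h⟩

lemma grMul_congr {α : Type} [Fintype α] [DecidableEq α] {f f' g g' : Perm α → ℚ} {π : Perm α}
    (hf : ∀ σ : Perm α, (∀ x, π x = x → σ x = x) → f σ = f' σ)
    (hg : ∀ σ : Perm α, (∀ x, π x = x → σ x = x) → g σ = g' σ) :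
    grMul f g π = grMul f' g' π := by
  refine sum_congr rfl fun σ _ => if_ctx_congr Iff.rfl (fun h => ?_) fun _ => rfl
  have key : ∀ x, π x = x → (σ⁻¹ * π) x = x ∧ σ x = x := fun x hx =>
    fixed_of_add (σ := σ) (τ := σ⁻¹ * π) (by simpa using h) (by simpa using hx)
  rw [hf σ fun x hx => (key x hx).2, hg _ fun x hx => (key x hx).1]

lemma grMul_type_le (h₁ h₂ : Multiset ℕ → ℚ) {d d' : ℕ} (hd : d ≤ d') (π : Perm (Fin d))
    (π' : Perm (Fin d')) (h : π.cycleType = π'.cycleType) :
    grMul (fun σ => h₁ σ.cycleType) (fun σ => h₂ σ.cycleType) π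
      = grMul (fun σ => h₁ σ.cycleType) (fun σ => h₂ σ.cycleType) π' := by
  let e := (Fin.castLEEmb hd).toEquivRange
  obtain ⟨x, hx⟩ := isConj_iff.mp
    (isConj_of_cycleType_eq ((cycleType_extendDomain e (g := π)).trans h))
  rw [← hx, grMul_conj (by simp) (by simp), grMul_extendDomain]
  simp only [cycleType_extendDomain]

lemma grMul_type (h₁ h₂ : Multiset ℕ → ℚ) {d d' : ℕ} (π : Perm (Fin d))
    (π' : Perm (Fin d')) (h : π.cycleType = π'.cycleType) :
    grMul (fun σ => h₁ σ.cycleType) (fun σ => h₂ σ.cycleType) π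
      = grMul (fun σ => h₁ σ.cycleType) (fun σ => h₂ σ.cycleType) π' := by
  rcases le_total d d' with hd | hd
  · exact grMul_type_le h₁ h₂ hd π π' h
  · exact (grMul_type_le h₁ h₂ hd π' π h.symm).symm

noncomputable def rep (μ : Multiset ℕ) (h : Valid μ) : Perm (Fin μ.sum) :=
  (h.exists_perm le_rfl).choose

lemma rep_type (μ : Multiset ℕ) (h : Valid μ) : (rep μ h).cycleType = μ :=
  (h.exists_perm le_rfl).choose_spec

def ofFun (h : Multiset ℕ → ℚ) (d : ℕ) : classFun d :=
  ⟨fun σ => h σ.cycleType, fun x σ => by simp only [cycleType_conj]⟩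

lemma coe_mul' {d : ℕ} (f g : classFun d) : (f * g).1 = grMul f.1 g.1 := rfl

lemma coe_one' {d : ℕ} : (1 : classFun d).1 = Pi.single 1 1 := rfl

lemma ofFun_one : (1 : ∀ d, classFun d) = ofFun (Pi.single 0 1) := by
  funext d
  refine Subtype.ext (funext fun σ => ?_)
  simp [ofFun, coe_one', Pi.single_apply]

open Classical in
/-- The stable algebra. -/
noncomputable def Lam : Subalgebra ℚ (∀ d, classFun d) where
  carrier := {F | ∃ h, F = ofFun h}
  mul_mem' := by
    rintro _ _ ⟨h₁, rfl⟩ ⟨h₂, rfl⟩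
    refine ⟨fun μ => if h : Valid μ then
      grMul (fun σ => h₁ σ.cycleType) (fun σ => h₂ σ.cycleType) (rep μ h) else 0, ?_⟩
    funext d
    refine Subtype.ext (funext fun σ => ?_)
    simp only [ofFun, dif_pos (valid_type σ)]
    exact grMul_type h₁ h₂ _ _ (rep_type _ _).symm
  add_mem' := by
    rintro _ _ ⟨h₁, rfl⟩ ⟨h₂, rfl⟩
    exact ⟨h₁ + h₂, rfl⟩
  algebraMap_mem' := fun r => ⟨r • Pi.single 0 1, by
    rw [Algebra.algebraMap_eq_smul_one, ofFun_one]; rfl⟩

noncomputable def mk (h : Multiset ℕ → ℚ) : Lam := ⟨ofFun h, h, rfl⟩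

open Classical in
noncomputable def val : Lam →ₗ[ℚ] (Multiset ℕ → ℚ) where
  toFun F μ := if h : Valid μ then (F.1 μ.sum).1 (rep μ h) else 0
  map_add' F G := by funext μ; by_cases h : Valid μ <;> simp [h]
  map_smul' c F := by funext μ; by_cases h : Valid μ <;> simp [h]

lemma val_mk (h : Multiset ℕ → ℚ) {μ : Multiset ℕ} (hμ : Valid μ) : val (mk h) μ = h μ := by
  simp [val, mk, ofFun, hμ, rep_type]

lemma val_type (F : Lam) {d : ℕ} (σ : Perm (Fin d)) : val F σ.cycleType = (F.1 d).1 σ := by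
  obtain ⟨_, h, rfl⟩ := F
  exact val_mk h (valid_type σ)

lemma Lam.ext' {F G : Lam} (h : ∀ μ, Valid μ → val F μ = val G μ) : F = G := by
  refine Subtype.ext (funext fun d => Subtype.ext (funext fun σ => ?_))
  rw [← val_type, ← val_type, h _ (valid_type σ)]

lemma val_mul (F G : Lam) {d : ℕ} (π : Perm (Fin d)) : val (F * G) π.cycleType
    = grMul (fun σ => val F σ.cycleType) (fun σ => val G σ.cycleType) π := by
  simp only [val_type]
  rfl

noncomputable def K (μ : Multiset ℕ) : Lam := mk (Pi.single μ 1)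

lemma val_K (μ : Multiset ℕ) {ν : Multiset ℕ} (hν : Valid ν) :
    val (K μ) ν = if ν = μ then 1 else 0 := by
  rw [K, val_mk _ hν, Pi.single_apply]

lemma K_zero : K 0 = 1 := Subtype.ext ofFun_one.symm

noncomputable def dl (i : ℕ) : Lam := K (Multiset.replicate i 2)

noncomputable def gam (a : ℕ) : Lam := K {a + 1}

lemma dl_apply (i d : ℕ) : (dl i).1 d = delta d i := by
  refine Subtype.ext (funext fun σ => ?_)
  rw [← val_type, dl, val_K _ (valid_type σ)]
  rfl

/-- The homogeneous part of degree `n`. -/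
def H (n : ℕ) : Submodule ℚ Lam where
  carrier := {F | ∀ μ, Valid μ → nrm μ ≠ n → val F μ = 0}
  add_mem' := fun hF hG μ h1 h2 => by simp [hF μ h1 h2, hG μ h1 h2]
  zero_mem' := fun μ _ _ => by simp
  smul_mem' := fun c F hF μ h1 h2 => by simp [hF μ h1 h2]

lemma val_mul_ne_zero {F G : Lam} {μ : Multiset ℕ} (hμ : Valid μ) (h : val (F * G) μ ≠ 0) :
    ∃ σ τ : Perm (Fin μ.sum), (σ * τ).cycleType = μ ∧
      permNorm σ + permNorm τ = permNorm (σ * τ) ∧
      val F σ.cycleType ≠ 0 ∧ val G τ.cycleType ≠ 0 := by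
  rw [← rep_type μ hμ, val_mul] at h
  obtain ⟨σ, τ, h1, h2, h3, h4⟩ := grMul_ne_zero h
  exact ⟨σ, τ, h1 ▸ rep_type μ hμ, h1 ▸ h2, h3, h4⟩

lemma mul_mem_H {a b : ℕ} {F G : Lam} (hF : F ∈ H a) (hG : G ∈ H b) : F * G ∈ H (a + b) := by
  intro μ h1 h2
  by_contra hc
  obtain ⟨σ, τ, h3, h4, h5, h6⟩ := val_mul_ne_zero h1 hc
  have e1 : nrm σ.cycleType = a := by_contra fun e => h5 (hF _ (valid_type σ) e)
  have e2 : nrm τ.cycleType = b := by_contra fun e => h6 (hG _ (valid_type τ) e)
  rw [nrm_type] at e1 e2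
  exact h2 (by rw [← h3, nrm_type, ← h4, e1, e2])

lemma K_mem_H (μ : Multiset ℕ) : K μ ∈ H (nrm μ) := by
  intro ν h1 h2
  rw [val_K _ h1, if_neg]
  rintro rfl
  exact h2 rfl

lemma one_mem_H : (1 : Lam) ∈ H 0 := K_zero ▸ K_mem_H 0

lemma dl_mem_H (i : ℕ) : dl i ∈ H i := by
  have := K_mem_H (Multiset.replicate i 2)
  rwa [show nrm (Multiset.replicate i 2) = i by simp [nrm]; omega] at this

lemma gam_mem_H (a : ℕ) : gam a ∈ H a := by
  have := K_mem_H {a + 1}
  rwa [show nrm {a + 1} = a by simp [nrm]] at this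

/-- The cycle types of norm `n`. -/
def types (n : ℕ) : Finset (Multiset ℕ) :=
  (univ.filter fun σ : Perm (Fin (2 * n)) => permNorm σ = n).image cycleType

lemma mem_types {n : ℕ} {μ : Multiset ℕ} : μ ∈ types n ↔ Valid μ ∧ nrm μ = n := by
  rw [types, mem_image]
  constructor
  · rintro ⟨σ, h, rfl⟩
    exact ⟨valid_type σ, by rw [nrm_type]; simpa using h⟩
  · rintro ⟨h1, h2⟩
    have := h1.two_mul_card_le
    obtain ⟨σ, rfl⟩ := h1.exists_perm (d := 2 * n) (by rw [nrm] at h2; omega)
    exact ⟨σ, by rw [nrm_type] at h2; simpa using h2, rfl⟩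

lemma eq_sum_K {n : ℕ} {F : Lam} (hF : F ∈ H n) : F = ∑ μ ∈ types n, val F μ • K μ := by
  refine Lam.ext' fun ν hν => ?_
  rw [map_sum, Finset.sum_apply]
  simp only [map_smul, Pi.smul_apply, val_K _ hν, smul_eq_mul, mul_ite, mul_one, mul_zero,
    sum_ite_eq]
  split_ifs with h
  · rfl
  · exact hF ν hν fun e => h (mem_types.mpr ⟨hν, e⟩)

instance (n : ℕ) : FiniteDimensional ℚ (H n) := by
  have := FiniteDimensional.span_of_finite ℚ ((types n).finite_toSet.image K)
  refine Submodule.finiteDimensional_of_le (S₂ := Submodule.span ℚ (K '' types n)) fun F hF => ?_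
  rw [eq_sum_K hF]
  exact Submodule.sum_mem _ fun μ hμ =>
    Submodule.smul_mem _ _ (Submodule.subset_span ⟨μ, hμ, rfl⟩)

lemma eq_smul_one {F : Lam} (hF : F ∈ H 0) : F = val F 0 • 1 := by
  refine Lam.ext' fun ν hν => ?_
  rw [map_smul, ← K_zero, Pi.smul_apply, val_K _ hν]
  split_ifs with h
  · simp [h]
  · have := hν.two_mul_card_le
    have h2 : Multiset.card ν ≠ 0 := by simpa using h
    rw [hF ν hν (by rw [nrm]; omega)]
    simp

lemma val_K_mul_K {α β μ : Multiset ℕ} (hμ : Valid μ) (h : val (K α * K β) μ ≠ 0) :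
    μ = α + β ∨ μ.sum < α.sum + β.sum := by
  obtain ⟨σ, τ, h1, -, h3, h4⟩ := val_mul_ne_zero hμ h
  rw [val_K _ (valid_type _)] at h3 h4
  have e1 : σ.cycleType = α := by by_contra e; exact h3 (if_neg e)
  have e2 : τ.cycleType = β := by by_contra e; exact h4 (if_neg e)
  by_cases hd : _root_.Disjoint σ.support τ.support
  · left
    rw [← h1, (disjoint_iff_disjoint_support.mpr hd).cycleType_mul, e1, e2]
  · right
    rw [← h1, ← e1, ← e2, sum_cycleType, sum_cycleType, sum_cycleType]
    have a1 := card_le_card (support_mul_le σ τ)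
    have a2 := card_union_add_card_inter σ.support τ.support
    have a3 : 0 < (σ.support ∩ τ.support).card :=
      card_pos.mpr (not_disjoint_iff_nonempty_inter.mp hd)
    rw [sup_eq_union] at a1
    omega

lemma val_gam_mul_K {a : ℕ} {ν : Multiset ℕ} (h : Valid ((a + 1) ::ₘ ν)) :
    val (gam a * K ν) ((a + 1) ::ₘ ν) ≠ 0 := by
  have h0 := rep_type _ h
  obtain ⟨c, τ, h1, h2, h3, h4⟩ :=
    mem_cycleType_iff.mp (h0.symm ▸ Multiset.mem_cons_self (a + 1) ν)
  have e1 : c.cycleType = {a + 1} := by rw [h3.cycleType, h4]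
  have e2 : τ.cycleType = ν := by
    rw [h1, h2.cycleType_mul, e1, Multiset.singleton_add] at h0
    exact (Multiset.cons_inj_right _).mp h0
  rw [← h0, val_mul, h1]
  refine ne_of_gt (sum_pos' (fun σ _ => ?_) ⟨c, mem_univ _, ?_⟩)
  · simp only [gam, val_K _ (valid_type _)]
    split_ifs <;> norm_num
  · rw [inv_mul_cancel_left, if_pos (permNorm_disjoint h2).symm]
    simp only [gam, val_K _ (valid_type _)]
    simp [e1, e2]

/-- Decomposable elements of degree `n`. -/
noncomputable def Dec (n : ℕ) : Submodule ℚ Lam :=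
  Submodule.span ℚ {x | ∃ a b, 1 ≤ a ∧ 1 ≤ b ∧ a + b = n ∧ ∃ F ∈ H b, x = gam a * F}

lemma K_mem_sup {n : ℕ} (hn : 1 ≤ n) (s : ℕ) : ∀ ρ ∈ types n, ρ.sum = s →
    K ρ ∈ Dec n ⊔ Submodule.span ℚ {gam n} := by
  induction s using Nat.strong_induction_on with
  | _ s ih =>
  intro ρ hρ hs
  obtain ⟨h1, h2⟩ := mem_types.mp hρ
  obtain ⟨c, hc⟩ := Multiset.exists_mem_of_ne_zero (s := ρ) (by
    rintro rfl; simp [nrm] at h2; omega)
  obtain ⟨a, rfl⟩ : ∃ a, c = a + 1 := ⟨c - 1, by have := h1 c hc; omega⟩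
  have ha : 1 ≤ a := by have := h1 _ hc; omega
  obtain ⟨ν, rfl⟩ := Multiset.exists_cons_of_mem hc
  have hν : Valid ν := fun b hb => h1 b (Multiset.mem_cons_of_mem hb)
  have hnr : a + nrm ν = n := by
    have := hν.two_mul_card_le
    simp only [nrm, Multiset.sum_cons, Multiset.card_cons] at h2 ⊢
    omega
  have hH : gam a * K ν ∈ H n := hnr ▸ mul_mem_H (gam_mem_H a) (K_mem_H ν)
  have hmem : gam a * K ν ∈ Dec n ⊔ Submodule.span ℚ {gam n} := by
    rcases Nat.eq_zero_or_pos (nrm ν) with h0 | h0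
    · refine Submodule.mem_sup_right ?_
      rw [eq_smul_one (F := K ν) (h0 ▸ K_mem_H ν), mul_smul_comm, mul_one, show a = n by omega]
      exact Submodule.smul_mem _ _ (Submodule.mem_span_singleton_self _)
    · exact Submodule.mem_sup_left
        (Submodule.subset_span ⟨a, nrm ν, ha, h0, hnr, _, K_mem_H ν, rfl⟩)
  have hrest : ∑ μ ∈ (types n).erase ((a + 1) ::ₘ ν), val (gam a * K ν) μ • K μ
      ∈ Dec n ⊔ Submodule.span ℚ {gam n} := by
    refine Submodule.sum_mem _ fun μ hμ => ?_
    rw [mem_erase] at hμ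
    by_cases h0 : val (gam a * K ν) μ = 0
    · rw [h0, zero_smul]; exact Submodule.zero_mem _
    refine Submodule.smul_mem _ _ (ih μ.sum ?_ μ hμ.2 rfl)
    rcases val_K_mul_K (mem_types.mp hμ.2).1 h0 with e | e
    · exact absurd (e.trans (Multiset.singleton_add _ _)) hμ.1
    · simpa [← hs] using e
  rw [eq_sum_K hH, ← add_sum_erase _ _ hρ] at hmem
  exact (Submodule.smul_mem_iff _ (val_gam_mul_K h1)).mp
    ((Submodule.add_mem_iff_left _ hrest).mp hmem)

lemma H_le_sup {n : ℕ} (hn : 1 ≤ n) : H n ≤ Dec n ⊔ Submodule.span ℚ {gam n} := by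
  intro F hF
  rw [eq_sum_K hF]
  exact Submodule.sum_mem _ fun μ hμ => Submodule.smul_mem _ _ (K_mem_sup hn _ μ hμ rfl)

/-- Removing a transposition: a derivation of the stable algebra. -/
noncomputable def der (F : Lam) : Lam := mk fun μ => val F (2 ::ₘ μ)

lemma val_mul_cons (F G : Lam) {μ : Multiset ℕ} (hμ : Valid μ) :
    val (F * G) (2 ::ₘ μ) = val (F * der G) μ + val (der F * G) μ := by
  obtain ⟨π, hπ⟩ : ∃ π : Perm (Fin (μ.sum + 2)), π.cycleType = μ := hμ.exists_perm (by omega)
  have h1 : 1 < π.supportᶜ.card := by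
    rw [card_compl, ← sum_cycleType, hπ]; simp
  obtain ⟨a, ha, b, hb, hab⟩ := one_lt_card.mp h1
  rw [mem_compl, notMem_support] at ha hb
  rw [← hπ, ← cycleType_mul_swap hab ha hb, val_mul, val_mul, val_mul, grMul_peel _ _ hab ha hb]
  have key : ∀ (F : Lam) (σ : Perm (Fin (μ.sum + 2))), (∀ x, π x = x → σ x = x) →
      val F (σ * swap a b).cycleType = val (der F) σ.cycleType := by
    intro F σ h
    rw [cycleType_mul_swap hab (h a ha) (h b hb), der, val_mk _ (valid_type σ)]
  congr 1
  · exact grMul_congr (fun _ _ => rfl) (key G)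
  · exact grMul_congr (key F) (fun _ _ => rfl)

lemma Valid.cons_two {μ : Multiset ℕ} (h : Valid μ) : Valid (2 ::ₘ μ) := fun a ha => by
  rcases Multiset.mem_cons.mp ha with rfl | ha
  · exact le_rfl
  · exact h a ha

lemma der_K_cons (μ : Multiset ℕ) : der (K (2 ::ₘ μ)) = K μ := by
  refine Lam.ext' fun ν hν => ?_
  rw [der, val_mk _ hν, val_K _ hν.cons_two, val_K _ hν]
  simp

lemma der_K_zero : der (K 0) = 0 := by
  refine Lam.ext' fun ν hν => ?_
  rw [der, val_mk _ hν, val_K _ hν.cons_two]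
  simp

end Pool.Agent.MP_15ac55_ag

end

section

/-!
The class sum of products of `n` disjoint transpositions is indecomposable.
-/

set_option autoImplicit false

open Finset Equiv Equiv.Perm Polynomial

namespace Pool.Agent.MP_15ac55_ag

section general

variable {α : Type} [Fintype α] [DecidableEq α]

def Wt (τ : Perm α) : ℚ := (τ.cycleType.prod : ℕ)

def eta (p : α) : Perm α → ℚ := fun σ => ∑ i ∈ univ.erase p, if σ = swap p i then 1 else 0

lemma permNorm_swap {p i : α} (h : p ≠ i) : permNorm (swap p i) = 1 := by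
  simpa using permNorm_mul_swap (ρ := 1) h rfl

lemma sum_eta (p : α) (G h : Perm α → ℚ) : ∑ π, grMul (eta p) G π * h π
    = ∑ τ, G τ * ∑ i ∈ (orb τ p)ᶜ, h (swap p i * τ) := by
  rw [sum_grMul]
  refine sum_congr rfl fun τ _ => ?_
  congr 1
  have e1 : ∀ σ : Perm α, (if permNorm σ + permNorm τ = permNorm (σ * τ) then eta p σ * h (σ * τ)
      else 0) = ∑ i ∈ univ.erase p, if σ = swap p i then
        (if permNorm σ + permNorm τ = permNorm (σ * τ) then h (σ * τ) else 0) else 0 := by
    intro σ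
    split_ifs with h1
    · simp only [eta, sum_mul, ite_mul, one_mul, zero_mul]
    · simp
  simp_rw [e1]
  rw [sum_comm]
  simp only [sum_ite_eq', mem_univ, if_true]
  rw [← sum_filter]
  refine sum_congr ?_ fun _ _ => rfl
  ext i
  simp only [mem_filter, mem_erase, mem_univ, and_true, mem_compl, mem_orb]
  constructor
  · rintro ⟨h1, h2⟩
    rw [permNorm_swap h1.symm] at h2
    exact permNorm_swap_mul_iff.mp (by omega)
  · intro h1
    have h2 : i ≠ p := fun e => h1 (e ▸ SameCycle.rfl)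
    rw [permNorm_swap h2.symm, permNorm_merge h1]
    exact ⟨h2, add_comm _ _⟩

lemma sum_inv_len (τ : Perm α) :
    ∑ x, (1 : ℚ) / len τ x = Fintype.card α - (permNorm τ : ℚ) := by
  have := cycSum_one τ
  rw [cycSum] at this
  apply Rat.cast_injective (α := ℝ)
  push_cast
  exact this

lemma sum_inv_len_compl (τ : Perm α) (p : α) :
    ∑ x ∈ (orb τ p)ᶜ, (1 : ℚ) / len τ x = Fintype.card α - (permNorm τ : ℚ) - 1 := by
  have h1 := sum_orb (fun _ => 1) τ p
  have h2 : ∑ x ∈ orb τ p, (1 : ℚ) / len τ x = 1 := by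
    apply Rat.cast_injective (α := ℝ)
    push_cast
    exact h1
  rw [← sum_inv_len, ← sum_add_sum_compl (orb τ p), h2]
  ring

lemma Wt_merge {τ : Perm α} {p i : α} (h : ¬SameCycle τ p i) :
    Wt (swap p i * τ) = Wt τ * (1 / len τ p + 1 / len τ i) := by
  have h1 := prod_merge h
  have h2 : (0 : ℚ) < len τ p := by exact_mod_cast len_pos _ _
  have h3 : (0 : ℚ) < len τ i := by exact_mod_cast len_pos _ _
  have h4 : Wt (swap p i * τ) * (len τ p * len τ i) = Wt τ * (len τ p + len τ i) := by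
    simp only [Wt]; exact_mod_cast h1
  field_simp
  linarith

def uu (p : α) (G : Perm α → ℚ) : ℚ := ∑ τ, G τ * (Wt τ / len τ p)

def ww (G : Perm α → ℚ) : ℚ := ∑ τ, G τ * Wt τ

def Hom (G : Perm α → ℚ) (j : ℕ) : Prop := ∀ τ, G τ ≠ 0 → permNorm τ = j

lemma uu_eta (p : α) {G : Perm α → ℚ} {j : ℕ} (hG : Hom G j) :
    uu p (grMul (eta p) G) = (Fintype.card α - j - 1) * uu p G := by
  rw [uu, sum_eta, uu, mul_sum]
  refine sum_congr rfl fun τ _ => ?_
  by_cases h0 : G τ = 0
  · simp [h0]
  rw [← hG τ h0, ← sum_inv_len_compl τ p, mul_left_comm, sum_mul]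
  congr 1
  refine sum_congr rfl fun i hi => ?_
  rw [mem_compl, mem_orb] at hi
  have h2 : (0 : ℚ) < len τ p := by exact_mod_cast len_pos _ _
  have h3 : (0 : ℚ) < len τ i := by exact_mod_cast len_pos _ _
  rw [Wt_merge hi, len_merge hi]
  push_cast
  field_simp
  ring

lemma ww_eta (p : α) {G : Perm α → ℚ} {j : ℕ} (hG : Hom G j) :
    ww (grMul (eta p) G) = (Fintype.card α - j - 2) * ww G + Fintype.card α * uu p G := by
  rw [ww, sum_eta, uu, ww, mul_sum, mul_sum, ← sum_add_distrib]
  refine sum_congr rfl fun τ _ => ?_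
  by_cases h0 : G τ = 0
  · simp [h0]
  rw [sum_congr rfl (fun i hi => Wt_merge (by simpa using hi)), ← mul_sum, sum_add_distrib,
    sum_inv_len_compl, sum_const, card_compl, nsmul_eq_mul, Nat.cast_sub (card_le_univ _),
    hG τ h0]
  have h2 : (0 : ℚ) < len τ p := by exact_mod_cast len_pos _ _
  change _ * (_ * ((_ - (len τ p : ℚ)) * _ + _)) = _
  field_simp
  ring

lemma eta_ne_zero {p : α} {σ : Perm α} (h : eta p σ ≠ 0) : ∃ i, p ≠ i ∧ σ = swap p i := by
  obtain ⟨i, h1, h2⟩ := exists_ne_zero_of_sum_ne_zero h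
  refine ⟨i, (mem_erase.mp h1).1.symm, ?_⟩
  by_contra hc
  exact h2 (if_neg hc)

lemma Hom.eta_mul (p : α) {G : Perm α → ℚ} {j : ℕ} (hG : Hom G j) :
    Hom (grMul (eta p) G) (j + 1) := by
  intro π h
  obtain ⟨σ, τ, -, h2, h3, h4⟩ := grMul_ne_zero h
  obtain ⟨i, h5, rfl⟩ := eta_ne_zero h3
  rw [← h2, permNorm_swap h5, hG τ h4, add_comm]

def etaPow (p : α) (G : Perm α → ℚ) : ℕ → Perm α → ℚ
  | 0 => G
  | a + 1 => grMul (eta p) (etaPow p G a)

lemma Hom.etaPow (p : α) {G : Perm α → ℚ} {j : ℕ} (hG : Hom G j) (a : ℕ) :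
    Hom (etaPow p G a) (j + a) := by
  induction a with
  | zero => exact hG
  | succ a ih => exact ih.eta_mul p

lemma etaPow_eq (p : α) (G : Perm α → ℚ) (a : ℕ) :
    etaPow p G a = grMul (etaPow p (Pi.single 1 1) a) G := by
  induction a with
  | zero => exact (grMul_one_left G).symm
  | succ a ih => rw [etaPow, etaPow, grMul_assoc, ← ih]

def fall (x : ℚ) (a : ℕ) : ℚ := ∏ t ∈ range a, (x - 1 - t)

lemma sum_etaPow {G : Perm α → ℚ} {j : ℕ} (hG : Hom G j) (a : ℕ) :
    ∑ p, uu p (etaPow p G a) = (Fintype.card α - j) * fall (Fintype.card α - j) a * ww G ∧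
    ∑ p, ww (etaPow p G a) = (a + 1) * Fintype.card α * fall (Fintype.card α - j) a * ww G := by
  induction a with
  | zero =>
    constructor
    · simp only [etaPow, uu, ww, fall, range_zero, prod_empty, mul_one, mul_sum]
      rw [sum_comm]
      refine sum_congr rfl fun τ _ => ?_
      by_cases h0 : G τ = 0
      · simp [h0]
      rw [← hG τ h0, ← sum_inv_len, sum_mul]
      exact sum_congr rfl fun p _ => by ring
    · simp [etaPow, fall]
  | succ a ih =>
    simp only [etaPow, uu_eta _ (hG.etaPow _ a), ww_eta _ (hG.etaPow _ a), sum_add_distrib,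
      ← mul_sum, ih.1, ih.2, fall, prod_range_succ]
    push_cast
    constructor <;> ring

lemma hom_one : Hom (Pi.single 1 1 : Perm α → ℚ) 0 := by
  intro τ h
  by_cases e : τ = 1
  · simp [e]
  · simp [e] at h

lemma etaPow_support (p : α) (a : ℕ) : ∀ σ : Perm α, etaPow p (Pi.single 1 1) a σ ≠ 0 →
    (insert p σ.support).card ≤ a + 1 := by
  induction a with
  | zero =>
    intro σ h
    by_cases e : σ = 1
    · simp [e]
    · simp [etaPow, e] at h
  | succ a ih =>
    intro π h
    obtain ⟨σ, τ, rfl, -, h3, h4⟩ := grMul_ne_zero h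
    obtain ⟨i, h5, rfl⟩ := eta_ne_zero h3
    have h6 : insert p (swap p i * τ).support ⊆ insert i (insert p τ.support) := by
      intro x hx
      rcases mem_insert.mp hx with rfl | hx
      · simp
      · have := support_mul_le _ _ hx
        rw [support_swap h5] at this
        simp only [sup_eq_union, mem_union, mem_insert, mem_singleton] at this ⊢
        tauto
    exact (card_le_card h6).trans ((card_insert_le _ _).trans (Nat.succ_le_succ (ih τ h4)))

lemma etaPow_type (p : α) {a : ℕ} (ha : 1 ≤ a) {σ : Perm α}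
    (h : etaPow p (Pi.single 1 1) a σ ≠ 0) : σ.cycleType = {a + 1} := by
  have h1 := (card_le_card (subset_insert p σ.support)).trans (etaPow_support p a σ h)
  have h2 := hom_one.etaPow p a σ h
  have h3 := permNorm_add_card σ
  have h4 := two_mul_card_le σ
  rw [← sum_cycleType] at h1
  have h5 : Multiset.card σ.cycleType ≠ 0 := fun e => by
    rw [card_cycleType_eq_zero.mp e] at h2
    simp at h2
    omega
  obtain ⟨c, hc⟩ := Multiset.card_eq_one.mp (show Multiset.card σ.cycleType = 1 by omega)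
  rw [hc] at h3 ⊢
  simp at h3
  congr 1
  omega

lemma grMul_conj' (f g : Perm α → ℚ) (x π : Perm α) : grMul f g (x * π * x⁻¹)
    = grMul (fun σ => f (x * σ * x⁻¹)) (fun σ => g (x * σ * x⁻¹)) π := by
  simp only [grMul]
  rw [← Equiv.sum_comp (MulAut.conj x).toEquiv]
  refine sum_congr rfl fun σ _ => ?_
  have e : (x * σ * x⁻¹)⁻¹ * (x * π * x⁻¹) = x * (σ⁻¹ * π) * x⁻¹ := by group
  simp only [MulEquiv.toEquiv_eq_coe, EquivLike.coe_coe, MulAut.conj_apply, e, permNorm_conj]

lemma eta_conj (p : α) (x σ : Perm α) : eta (x p) (x * σ * x⁻¹) = eta p σ := by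
  simp only [eta]
  symm
  refine sum_equiv x (by simp) fun i _ => if_congr ?_ rfl rfl
  rw [swap_apply_apply]
  simp

lemma etaPow_conj (p : α) (x : Perm α) (a : ℕ) : ∀ σ : Perm α,
    etaPow (x p) (Pi.single 1 1) a (x * σ * x⁻¹) = etaPow p (Pi.single 1 1) a σ := by
  induction a with
  | zero => exact single_conj x
  | succ a ih =>
    intro σ
    rw [etaPow, etaPow, grMul_conj']
    simp only [eta_conj, ih]

lemma exists_piA {a : ℕ} (ha : 1 ≤ a) : ∃ c : ℚ, ∑ p : α, etaPow p (Pi.single 1 1) a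
    = c • fun σ : Perm α => if σ.cycleType = {a + 1} then (1 : ℚ) else 0 := by
  have h0 : ∀ σ : Perm α, σ.cycleType ≠ {a + 1} →
      (∑ p : α, etaPow p (Pi.single 1 1) a) σ = 0 := by
    intro σ h
    rw [Finset.sum_apply]
    exact sum_eq_zero fun p _ => by_contra fun hc => h (etaPow_type p ha hc)
  by_cases hex : ∃ σ₀ : Perm α, σ₀.cycleType = {a + 1}
  · obtain ⟨σ₀, h⟩ := hex
    refine ⟨(∑ p : α, etaPow p (Pi.single 1 1) a) σ₀, funext fun σ => ?_⟩
    by_cases e : σ.cycleType = {a + 1}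
    · obtain ⟨x, rfl⟩ := isConj_iff.mp (isConj_of_cycleType_eq (h.trans e.symm))
      simp only [Finset.sum_apply, Pi.smul_apply, e, if_true, smul_eq_mul, mul_one]
      rw [← Equiv.sum_comp x]
      simp only [etaPow_conj]
    · rw [h0 σ e]; simp [e]
  · exact ⟨0, funext fun σ => by rw [h0 σ fun e => hex ⟨σ, e⟩]; simp⟩

lemma ww_smul (c : ℚ) (G : Perm α → ℚ) : ww (c • G) = c * ww G := by
  simp [ww, mul_sum, mul_assoc]

lemma ww_sum {ι : Type} (s : Finset ι) (G : ι → Perm α → ℚ) :
    ww (∑ i ∈ s, G i) = ∑ i ∈ s, ww (G i) := by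
  simp only [ww, Finset.sum_apply, sum_mul]
  rw [sum_comm]

lemma ww_cycle_mul {a : ℕ} (ha : 1 ≤ a) (hα : 0 < Fintype.card α) {G : Perm α → ℚ} {j : ℕ}
    (hG : Hom G j) :
    ww (grMul (fun σ : Perm α => if σ.cycleType = {a + 1} then (1 : ℚ) else 0) G)
        * fall (Fintype.card α) a
      = ww (fun σ : Perm α => if σ.cycleType = {a + 1} then (1 : ℚ) else 0)
        * fall (Fintype.card α - j) a * ww G := by
  obtain ⟨c, hc⟩ := exists_piA (α := α) ha
  set γ : Perm α → ℚ := fun σ : Perm α => if σ.cycleType = {a + 1} then (1 : ℚ) else 0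
  have h1 := (sum_etaPow hG a).2
  have h2 := (sum_etaPow (hom_one (α := α)) a).2
  have h3 : ww (Pi.single 1 1 : Perm α → ℚ) = 1 := by
    rw [ww, sum_eq_single 1]
    · simp [Wt]
    · intro σ _ h; simp [h]
    · simp
  simp_rw [etaPow_eq _ G] at h1
  rw [← ww_sum, ← grMul_sum_left, hc, grMul_smul_left, ww_smul] at h1
  rw [← ww_sum, hc, ww_smul, h3, Nat.cast_zero, sub_zero, mul_one] at h2
  have h4 : (0 : ℚ) < (a + 1) * Fintype.card α := by positivity
  refine mul_left_cancel₀ h4.ne' ?_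
  linear_combination ww γ * h1 - ww (grMul γ G) * h2

end general

noncomputable def chi (D : ℕ) : Lam →ₗ[ℚ] ℚ where
  toFun F := ww (F.1 D).1
  map_add' F G := by simp [ww, add_mul, sum_add_distrib]
  map_smul' c F := by simp [ww, mul_sum, mul_assoc]

lemma cast_descFactorial (D s : ℕ) : (D.descFactorial (s + 1) : ℚ) = D * fall D s := by
  have : ∀ s, (D.descFactorial s : ℚ) = ∏ t ∈ range s, ((D : ℚ) - t) := by
    intro s
    induction s with
    | zero => simp
    | succ s ih =>
      rw [prod_range_succ, ← ih, Nat.descFactorial_succ, Nat.cast_mul, mul_comm]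
      rcases le_or_gt s D with h | h
      · rw [Nat.cast_sub h]
      · rw [Nat.descFactorial_eq_zero_iff_lt.mpr h]; simp
  rw [this, prod_range_succ', fall, mul_comm]
  simp only [Nat.cast_zero, sub_zero, Nat.cast_add, Nat.cast_one]
  congr 1
  exact prod_congr rfl fun t _ => by ring

lemma chi_K {μ : Multiset ℕ} (hμ : Valid μ) (D : ℕ) : chi D (K μ)
    = (D.descFactorial μ.sum : ℚ) / ((∏ n ∈ μ.toFinset, (μ.count n).factorial : ℕ) : ℚ) := by
  have h1 : chi D (K μ) = (univ.filter fun g : Perm (Fin D) => g.cycleType = μ).card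
      * ((μ.prod : ℕ) : ℚ) := by
    change ww _ = _
    rw [ww, ← nsmul_eq_mul, ← sum_const, sum_filter]
    refine sum_congr rfl fun σ _ => ?_
    rw [← val_type, val_K _ (valid_type σ)]
    split_ifs with h
    · rw [one_mul, Wt, h]
    · simp
  have h2 := card_of_cycleType_mul_eq (Fin D) μ
  have h3 : (0 : ℚ) < ((∏ n ∈ μ.toFinset, (μ.count n).factorial : ℕ) : ℚ) := by
    exact_mod_cast Finset.prod_pos fun n _ => Nat.factorial_pos _
  rw [h1, eq_div_iff h3.ne']
  rw [Fintype.card_fin] at h2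
  by_cases h : μ.sum ≤ D
  · rw [if_pos ⟨h, hμ⟩, ← Nat.factorial_mul_descFactorial h] at h2
    have h4 : (univ.filter fun g : Perm (Fin D) => g.cycleType = μ).card * μ.prod
        * (∏ n ∈ μ.toFinset, (μ.count n).factorial) = D.descFactorial μ.sum := by
      refine Nat.eq_of_mul_eq_mul_left (Nat.factorial_pos (D - μ.sum)) ?_
      rw [← h2]; ring
    exact_mod_cast h4
  · have h4 := (card_of_cycleType_eq_zero_iff (Fin D) (m := μ)).mpr (by
      rw [Fintype.card_fin]; exact fun a => h a.1)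
    rw [h4, Nat.descFactorial_eq_zero_iff_lt.mpr (not_le.mp h)]
    simp

noncomputable def fallP (j : ℚ) (a : ℕ) : ℚ[X] := ∏ t ∈ range a, (X - C (j + 1 + t))

lemma eval_fallP (j x : ℚ) (a : ℕ) : (fallP j a).eval x = fall (x - j) a := by
  rw [fallP, eval_prod, fall]
  exact prod_congr rfl fun t _ => by simp; ring

lemma fall_zero_ne (a : ℕ) : fall 0 a ≠ 0 :=
  prod_ne_zero_iff.mpr fun t _ => by
    have : (0 : ℚ) ≤ t := Nat.cast_nonneg t
    linarith

lemma poly_eq {p q : ℚ[X]} (h : ∀ D : ℕ, 1 ≤ D → p.eval (D : ℚ) = q.eval (D : ℚ)) : p = q := by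
  refine eq_of_infinite_eval_eq p q (Set.infinite_of_injective_forall_mem
    (f := fun D : ℕ => ((D + 1 : ℕ) : ℚ)) (fun a b e => by simpa using e) fun D => ?_)
  exact h (D + 1) (by omega)

lemma good_of_mem_H {j : ℕ} (hj : 1 ≤ j) {F : Lam} (hF : F ∈ H j) :
    ∃ r : ℚ[X], ∀ D : ℕ, chi D F = D * r.eval (D : ℚ) := by
  refine ⟨∑ μ ∈ types j, C (val F μ / ((∏ n ∈ μ.toFinset, (μ.count n).factorial : ℕ) : ℚ))
    * fallP 0 (μ.sum - 1), fun D => ?_⟩
  conv_lhs => rw [eq_sum_K hF]
  rw [map_sum, eval_finsetSum, mul_sum]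
  refine sum_congr rfl fun μ hμ => ?_
  obtain ⟨h1, h2⟩ := mem_types.mp hμ
  obtain ⟨s, hs⟩ : ∃ s, μ.sum = s + 1 := ⟨μ.sum - 1, by rw [nrm] at h2; omega⟩
  rw [map_smul, chi_K h1, hs, cast_descFactorial, eval_mul, eval_C, eval_fallP]
  simp only [smul_eq_mul, Nat.add_sub_cancel, sub_zero]
  ring

lemma good2_of_mem_Dec {n : ℕ} {x : Lam} (hx : x ∈ Dec n) :
    ∃ r : ℚ[X], r.eval 0 = 0 ∧ ∀ D : ℕ, chi D x = D * r.eval (D : ℚ) := by
  induction hx using Submodule.span_induction with
  | zero => exact ⟨0, by simp, by simp⟩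
  | add x y _ _ hx hy =>
    obtain ⟨r, h1, h2⟩ := hx
    obtain ⟨r', h3, h4⟩ := hy
    exact ⟨r + r', by simp [h1, h3], fun D => by simp [h2, h4, mul_add]⟩
  | smul c x _ hx =>
    obtain ⟨r, h1, h2⟩ := hx
    exact ⟨C c * r, by simp [h1], fun D => by simp [h2]; ring⟩
  | mem x hx =>
    obtain ⟨a, b, ha, hb, -, F, hF, rfl⟩ := hx
    obtain ⟨r₁, h1⟩ := good_of_mem_H (j := a + b) (by omega) (mul_mem_H (gam_mem_H a) hF)
    obtain ⟨r₂, h2⟩ := good_of_mem_H ha (gam_mem_H a)
    obtain ⟨r₃, h3⟩ := good_of_mem_H hb hF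
    refine ⟨r₁, ?_, h1⟩
    have key : r₁ * fallP 0 a = X * (r₂ * fallP b a * r₃) := by
      refine poly_eq fun D hD => ?_
      have e1 : ((gam a).1 D).1
          = fun σ : Perm (Fin D) => if σ.cycleType = {a + 1} then (1 : ℚ) else 0 := by
        funext σ
        rw [← val_type, gam, val_K _ (valid_type σ)]
      have e2 : Hom (F.1 D).1 b := fun τ h => by
        rw [← nrm_type]
        by_contra hc
        exact h (by rw [← val_type]; exact hF _ (valid_type τ) hc)
      have h4 := ww_cycle_mul (α := Fin D) ha (by rw [Fintype.card_fin]; omega) e2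
      rw [← e1, Fintype.card_fin] at h4
      change chi D (gam a * F) * _ = chi D (gam a) * _ * chi D F at h4
      rw [h1, h2, h3] at h4
      have h5 : (D : ℚ) ≠ 0 := by positivity
      simp only [eval_mul, eval_X, eval_fallP, sub_zero]
      refine mul_left_cancel₀ h5 ?_
      linear_combination h4
    have := congrArg (eval 0) key
    simp only [eval_mul, eval_X, zero_mul, eval_fallP, sub_zero] at this
    exact (mul_eq_zero.mp this).resolve_right (fall_zero_ne a)

theorem dl_not_mem_Dec {n : ℕ} (hn : 1 ≤ n) : dl n ∉ Dec n := by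
  intro h
  obtain ⟨r, h1, h2⟩ := good2_of_mem_Dec h
  have hv : Valid (Multiset.replicate n 2) := fun a ha => (Multiset.eq_of_mem_replicate ha).ge
  set c : ℚ := ((∏ k ∈ (Multiset.replicate n 2).toFinset,
    ((Multiset.replicate n 2).count k).factorial : ℕ) : ℚ) with hc
  have hc0 : 0 < c := by
    rw [hc]; exact_mod_cast Finset.prod_pos fun n _ => Nat.factorial_pos _
  obtain ⟨s, hs⟩ : ∃ s, (Multiset.replicate n 2).sum = s + 1 :=
    ⟨n * 2 - 1, by simp; omega⟩
  have key : C c * r = fallP 0 s := by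
    refine poly_eq fun D hD => ?_
    have h3 := h2 D
    rw [dl, chi_K hv, hs, cast_descFactorial, ← hc, div_eq_iff hc0.ne'] at h3
    have h5 : (D : ℚ) ≠ 0 := by positivity
    simp only [eval_mul, eval_C, eval_fallP, sub_zero]
    refine mul_left_cancel₀ h5 ?_
    linear_combination -h3
  have := congrArg (eval 0) key
  simp only [eval_mul, h1, mul_zero, eval_fallP, sub_zero] at this
  exact fall_zero_ne s this.symm

end Pool.Agent.MP_15ac55_ag

end

section

/-!
The stable algebra is the polynomial ring on the `δ_i`, degree by degree.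
-/

set_option autoImplicit false

open Finset Equiv Equiv.Perm MvPolynomial Module

namespace Pool.Agent.MP_15ac55_ag

instance : SetLike.GradedMonoid H where
  one_mem := one_mem_H
  mul_mem _ _ _ _ := mul_mem_H

lemma aeval_mem_H {A : Type} [CommRing A] [Algebra ℚ A] (H : ℕ → Submodule ℚ A)
    [SetLike.GradedMonoid H] {σ : Type} (w : σ → ℕ) (x : σ → A) (hx : ∀ i, x i ∈ H (w i)) {n : ℕ}
    {p : MvPolynomial σ ℚ} (hp : p.IsWeightedHomogeneous w n) : aeval x p ∈ H n := by
  induction hp using IsWeightedHomogeneous.induction_on with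
  | zero => simp
  | add p q _ _ h1 h2 => rw [map_add]; exact add_mem h1 h2
  | monomial s r hs =>
    rw [aeval_monomial, ← Algebra.smul_def, ← hs, Finsupp.weight_apply]
    exact Submodule.smul_mem _ _ (SetLike.prod_mem_graded H _ _ fun i _ =>
      SetLike.pow_mem_graded _ (hx i))

noncomputable def Phi : MvPolynomial ℕ ℚ →ₐ[ℚ] Lam := aeval fun i => dl (i + 1)

noncomputable def PP (n : ℕ) : Submodule ℚ (MvPolynomial ℕ ℚ) :=
  weightedHomogeneousSubmodule ℚ (fun i : ℕ => i + 1) n

lemma Phi_mem_H {n : ℕ} {p : MvPolynomial ℕ ℚ} (hp : p ∈ PP n) : Phi p ∈ H n :=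
  aeval_mem_H H _ _ (fun i => dl_mem_H (i + 1)) hp

lemma Phi_surj (n : ℕ) : ∀ F ∈ H n, ∃ p ∈ PP n, Phi p = F := by
  induction n using Nat.strong_induction_on with
  | _ n ih =>
  rcases Nat.eq_zero_or_pos n with rfl | hn
  · intro F hF
    exact ⟨val F 0 • 1, Submodule.smul_mem _ _ (isWeightedHomogeneous_one ℚ _), by
      rw [map_smul, map_one, ← eq_smul_one hF]⟩
  have h1 : Dec n ≤ (PP n).map Phi.toLinearMap := by
    refine Submodule.span_le.mpr ?_
    rintro _ ⟨a, b, ha, hb, hab, F, hF, rfl⟩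
    obtain ⟨p, hp, e1⟩ := ih a (by omega) _ (gam_mem_H a)
    obtain ⟨q, hq, e2⟩ := ih b (by omega) _ hF
    exact ⟨p * q, hab ▸ IsWeightedHomogeneous.mul hp hq, by simp [e1, e2]⟩
  have h2 : dl n ∈ (PP n).map Phi.toLinearMap := by
    obtain ⟨k, rfl⟩ : ∃ k, n = k + 1 := ⟨n - 1, by omega⟩
    exact ⟨X k, isWeightedHomogeneous_X ℚ _ k, by simp [Phi]⟩
  have h3 : gam n ∈ (PP n).map Phi.toLinearMap := by
    obtain ⟨y, hy, z, hz, e⟩ := Submodule.mem_sup.mp (H_le_sup hn (dl_mem_H n))
    obtain ⟨c, rfl⟩ := Submodule.mem_span_singleton.mp hz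
    have hc : c ≠ 0 := by
      rintro rfl
      rw [zero_smul, add_zero] at e
      exact dl_not_mem_Dec hn (e ▸ hy)
    rw [← e] at h2
    exact (Submodule.smul_mem_iff _ hc).mp ((Submodule.add_mem_iff_right _ (h1 hy)).mp h2)
  intro F hF
  exact sup_le h1 ((Submodule.span_singleton_le_iff_mem _ _).mpr h3) (H_le_sup hn hF)

lemma weight_toFinsupp (ν : Multiset ℕ) :
    Finsupp.weight (fun i : ℕ => i + 1) (Multiset.toFinsupp ν) = ν.sum + Multiset.card ν := by
  induction ν using Multiset.induction_on with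
  | empty => simp
  | cons a ν ih =>
    rw [← Multiset.singleton_add, map_add, map_add, ih, Multiset.toFinsupp_singleton,
      Finsupp.weight_single]
    simp
    ring

lemma Valid.sum_map_sub {μ : Multiset ℕ} (h : Valid μ) :
    (μ.map (· - 2)).sum + 2 * Multiset.card μ = μ.sum := by
  induction μ using Multiset.induction_on with
  | empty => simp
  | cons a μ ih =>
    have h1 := h a (Multiset.mem_cons_self _ _)
    have h2 := ih fun b hb => h b (Multiset.mem_cons_of_mem hb)
    simp only [Multiset.map_cons, Multiset.sum_cons, Multiset.card_cons]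
    omega

noncomputable def basisMap : MvPolynomial ℕ ℚ →ₗ[ℚ] Lam where
  toFun p := mk fun μ => coeff (Multiset.toFinsupp (μ.map (· - 2))) p
  map_add' p q := Lam.ext' fun μ hμ => by simp [val_mk _ hμ]
  map_smul' c p := Lam.ext' fun μ hμ => by simp [val_mk _ hμ]

lemma basisMap_injective : Function.Injective basisMap := by
  rw [injective_iff_map_eq_zero]
  intro p hp
  ext s
  have hv : Valid ((Finsupp.toMultiset s).map (· + 2)) := by
    intro a ha
    obtain ⟨b, -, rfl⟩ := Multiset.mem_map.mp ha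
    omega
  have := congrArg (fun F => val F ((Finsupp.toMultiset s).map (· + 2))) hp
  simp only [basisMap, LinearMap.coe_mk, AddHom.coe_mk, val_mk _ hv] at this
  simpa using this

lemma basisMap_mem_H {n : ℕ} {p : MvPolynomial ℕ ℚ} (hp : p ∈ PP n) : basisMap p ∈ H n := by
  intro μ hμ h
  simp only [basisMap, LinearMap.coe_mk, AddHom.coe_mk, val_mk _ hμ]
  refine IsWeightedHomogeneous.coeff_eq_zero hp _ ?_
  have := hμ.sum_map_sub
  rw [weight_toFinsupp, Multiset.card_map]
  rw [nrm] at h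
  omega

lemma Phi_inj {n : ℕ} {p : MvPolynomial ℕ ℚ} (hp : p ∈ PP n) (h : Phi p = 0) : p = 0 := by
  let B : PP n →ₗ[ℚ] H n := basisMap.restrict fun _ => basisMap_mem_H
  let F : PP n →ₗ[ℚ] H n := Phi.toLinearMap.restrict fun _ => Phi_mem_H
  have hB : Function.Injective B := fun a b e =>
    Subtype.ext (basisMap_injective (congrArg Subtype.val e))
  have hF : Function.Surjective F := fun y => by
    obtain ⟨p, hp, e⟩ := Phi_surj n y.1 y.2
    exact ⟨⟨p, hp⟩, Subtype.ext e⟩
  have : FiniteDimensional ℚ (PP n) := FiniteDimensional.of_injective (V₂ := H n) B hB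
  have h1 : finrank ℚ (PP n) = finrank ℚ (H n) :=
    le_antisymm (LinearMap.finrank_le_finrank_of_injective hB)
      (LinearMap.finrank_le_finrank_of_surjective hF)
  have h2 := (LinearMap.injective_iff_surjective_of_finrank_eq_finrank (V := PP n) (V₂ := H n) (f := F)
    h1).mpr hF
  exact congrArg Subtype.val ((injective_iff_map_eq_zero F).mp h2 ⟨p, hp⟩ (Subtype.ext h))

end Pool.Agent.MP_15ac55_ag

end
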