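import Mathlib
import Pool.Agent.Mg.F15ac55.G6de445
import Pool.Agent.MP_15ac55_ag.LinAlg
import Pool.Agent.MP_15ac55_ag.DefsC

section

/-!
The number of minimal relations in terms of the stable algebra.
-/

set_option autoImplicit false

open Finset Equiv Equiv.Perm MvPolynomial Module

namespace Pool.Agent.MP_15ac55_ag

noncomputable def res (d : ℕ) : Lam →ₐ[ℚ] classFun d :=
  (Pi.evalAlgHom ℚ (fun d => classFun d) d).comp Lam.val

noncomputable def J (d : ℕ) : Ideal Lam := RingHom.ker (res d)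

lemma mem_J {d : ℕ} {F : Lam} : F ∈ J d ↔ ∀ μ, Valid μ → μ.sum ≤ d → val F μ = 0 := by
  rw [J, RingHom.mem_ker]
  constructor
  · intro h μ h1 h2
    obtain ⟨σ, rfl⟩ := h1.exists_perm h2
    rw [val_type]
    exact congrFun (congrArg Subtype.val h) σ
  · intro h
    refine Subtype.ext (funext fun σ => ?_)
    refine (val_type F σ).symm.trans (h _ (valid_type σ) ?_)
    simpa using sum_cycleType_le σ

lemma dl_mem_J {d i : ℕ} (h : d / 2 < i) : dl i ∈ J d := by
  refine mem_J.mpr fun μ h1 h2 => ?_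
  rw [dl, val_K _ h1, if_neg]
  rintro rfl
  simp at h2
  omega

lemma eq_zero_of_mem_J {d n : ℕ} (h : 2 * n ≤ d) {F : Lam} (h1 : F ∈ J d) (h2 : F ∈ H n) :
    F = 0 := by
  refine Lam.ext' fun μ hμ => ?_
  rw [map_zero, Pi.zero_apply]
  by_cases e : nrm μ = n
  · have := hμ.two_mul_card_le
    exact mem_J.mp h1 μ hμ (by rw [nrm] at e; omega)
  · exact h2 μ hμ e

noncomputable def iota (d : ℕ) : MvPolynomial (Fin (d / 2)) ℚ →ₐ[ℚ] MvPolynomial ℕ ℚ :=
  rename Fin.val

noncomputable def kap (d : ℕ) : MvPolynomial ℕ ℚ →ₐ[ℚ] MvPolynomial (Fin (d / 2)) ℚ :=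
  aeval fun i => if h : i < d / 2 then X ⟨i, h⟩ else 0

noncomputable def Pm (d n : ℕ) : Submodule ℚ (MvPolynomial (Fin (d / 2)) ℚ) :=
  weightedHomogeneousSubmodule ℚ (fun i : Fin (d / 2) => i.val + 1) n

lemma kap_iota {d : ℕ} (p : MvPolynomial (Fin (d / 2)) ℚ) : kap d (iota d p) = p := by
  have : (kap d).comp (iota d) = AlgHom.id ℚ _ := by
    ext1 i
    simp [kap, iota]
  exact AlgHom.congr_fun this p

lemma res_dl (d i : ℕ) : res d (dl i) = delta d i := dl_apply i d

lemma phi_kap {d : ℕ} (p : MvPolynomial ℕ ℚ) : phi d (kap d p) = res d (Phi p) := by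
  have : (phi d).comp (kap d) = (res d).comp Phi := by
    ext1 i
    by_cases h : i < d / 2
    · simp [kap, phi, Phi, h, res_dl]
    · have : res d (dl (i + 1)) = 0 := dl_mem_J (by omega)
      simp [kap, Phi, h, this]
  exact AlgHom.congr_fun this p

lemma res_Phi_iota {d : ℕ} (p : MvPolynomial (Fin (d / 2)) ℚ) :
    res d (Phi (iota d p)) = phi d p := by
  rw [← phi_kap, kap_iota]

lemma iota_mem {d n : ℕ} {p : MvPolynomial (Fin (d / 2)) ℚ} (hp : p ∈ Pm d n) :
    iota d p ∈ PP n := by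
  have := WeightedHomogeneousSubmodule.gradedMonoid (R := ℚ) (w := fun i : ℕ => i + 1)
  have h := aeval_mem_H (weightedHomogeneousSubmodule ℚ fun i : ℕ => i + 1) _
    (fun i : Fin (d / 2) => X i.val) (fun i => isWeightedHomogeneous_X ℚ _ i.val) hp
  rwa [iota, rename_eq_aeval]

lemma kap_mem {d n : ℕ} {p : MvPolynomial ℕ ℚ} (hp : p ∈ PP n) : kap d p ∈ Pm d n := by
  have := WeightedHomogeneousSubmodule.gradedMonoid (R := ℚ) (w := fun i : Fin (d / 2) => i.val + 1)
  refine aeval_mem_H (weightedHomogeneousSubmodule ℚ fun i : Fin (d / 2) => i.val + 1) _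
    _ (fun i => ?_) hp
  split_ifs with h
  · exact isWeightedHomogeneous_X ℚ _ (⟨i, h⟩ : Fin (d / 2))
  · exact Submodule.zero_mem _

/-- The homogeneous component of degree `n`. -/
noncomputable def comp (n : ℕ) : Lam →ₗ[ℚ] Lam where
  toFun F := mk fun μ => if nrm μ = n then val F μ else 0
  map_add' F G := Lam.ext' fun μ hμ => by
    simp only [map_add, Pi.add_apply, val_mk _ hμ]; split_ifs <;> simp
  map_smul' c F := Lam.ext' fun μ hμ => by
    simp only [map_smul, Pi.smul_apply, val_mk _ hμ]; split_ifs <;> simp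

lemma val_comp (n : ℕ) (F : Lam) {μ : Multiset ℕ} (hμ : Valid μ) :
    val (comp n F) μ = if nrm μ = n then val F μ else 0 := val_mk _ hμ

lemma comp_mem_H (n : ℕ) (F : Lam) : comp n F ∈ H n := fun μ hμ h => by
  rw [val_comp _ _ hμ, if_neg h]

lemma comp_eq {n : ℕ} {F : Lam} (h : F ∈ H n) : comp n F = F := Lam.ext' fun μ hμ => by
  rw [val_comp _ _ hμ]
  split_ifs with e
  · rfl
  · exact (h μ hμ e).symm

lemma comp_mem_J {d : ℕ} (n : ℕ) {F : Lam} (h : F ∈ J d) : comp n F ∈ J d :=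
  mem_J.mpr fun μ h1 h2 => by rw [val_comp _ _ h1, mem_J.mp h μ h1 h2, ite_self]

lemma comp_mul {a n : ℕ} {F : Lam} (hF : F ∈ H a) (G : Lam) :
    comp n (F * G) = if a ≤ n then F * comp (n - a) G else 0 := by
  refine Lam.ext' fun μ hμ => ?_
  rw [val_comp _ _ hμ]
  have key : ∀ G : Lam, val (F * G) μ ≠ 0 → ∃ ν, Valid ν ∧ a + nrm ν = nrm μ ∧ val G ν ≠ 0 := by
    intro G h
    obtain ⟨σ, τ, h3, h4, h5, h6⟩ := val_mul_ne_zero hμ h
    have e1 : nrm σ.cycleType = a := by_contra fun e => h5 (hF _ (valid_type σ) e)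
    have e2 : nrm (σ * τ).cycleType = nrm μ := congrArg nrm h3
    exact ⟨_, valid_type τ, by rw [← e1, ← e2, nrm_type, nrm_type, nrm_type, h4], h6⟩
  split_ifs with h1 h2 h2
  · have : val (F * (G - comp (n - a) G)) μ = 0 := by
      by_contra hc
      obtain ⟨ν, h3, h4, h5⟩ := key _ hc
      rw [map_sub, Pi.sub_apply, val_comp _ _ h3, if_pos (by omega), sub_self] at h5
      exact h5 rfl
    rwa [mul_sub, map_sub, Pi.sub_apply, sub_eq_zero] at this
  · rw [map_zero, Pi.zero_apply]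
    by_contra hc
    obtain ⟨ν, h3, h4, h5⟩ := key _ hc
    omega
  · exact (mul_mem_H hF (comp_mem_H (n - a) G) μ hμ (by omega)).symm
  · rw [map_zero, Pi.zero_apply]

/-- The span of the products `δ_i j` with `i ≥ t`, `j ∈ J`, in degree `n`. -/
noncomputable def W (t d n : ℕ) : Submodule ℚ Lam :=
  Submodule.span ℚ {x | ∃ i b, t ≤ i ∧ i + b = n ∧ ∃ j ∈ J d, j ∈ H b ∧ x = dl i * j}

noncomputable def JH (d n : ℕ) : Submodule ℚ Lam := (J d).restrictScalars ℚ ⊓ H n

lemma W_le (t d n : ℕ) : W t d n ≤ JH d n := by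
  refine Submodule.span_le.mpr ?_
  rintro _ ⟨i, b, -, rfl, j, h1, h2, rfl⟩
  exact ⟨Ideal.mul_mem_left _ _ h1, mul_mem_H (dl_mem_H i) h2⟩

lemma dl_zero : dl 0 = 1 := K_zero

lemma W_zero (d n : ℕ) : W 0 d n = JH d n :=
  le_antisymm (W_le 0 d n) fun F hF => Submodule.subset_span
    ⟨0, n, le_rfl, zero_add n, F, hF.1, hF.2, by rw [dl_zero, one_mul]⟩

instance (d n : ℕ) : FiniteDimensional ℚ (JH d n) :=
  Submodule.finiteDimensional_of_le (S₂ := H n) inf_le_right

lemma W_le_map (d n : ℕ) : W 1 d n ≤ (PP n ⊓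
    Submodule.comap (kap d).toLinearMap ((RingHom.ker
      (constantCoeff : MvPolynomial (Fin (d / 2)) ℚ →+* ℚ)
        * RingHom.ker (phi d)).restrictScalars ℚ) ⊓
    LinearMap.ker (lcoeff ℚ (Finsupp.single (n - 1) 1))).map Phi.toLinearMap := by
  refine Submodule.span_le.mpr ?_
  rintro _ ⟨i, b, hi, hb, j, h1, h2, rfl⟩
  obtain ⟨i, rfl⟩ : ∃ k, i = k + 1 := ⟨i - 1, by omega⟩
  obtain ⟨p, hp, rfl⟩ := Phi_surj b j h2
  refine ⟨X i * p, ⟨⟨?_, ?_⟩, ?_⟩, by simp [Phi]⟩
  · exact hb ▸ IsWeightedHomogeneous.mul (isWeightedHomogeneous_X ℚ _ i) hp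
  · change kap d (X i * p) ∈ RingHom.ker constantCoeff * RingHom.ker (phi d)
    rw [map_mul]
    refine Ideal.mul_mem_mul ?_ ?_
    · rw [RingHom.mem_ker, kap, aeval_X]
      split_ifs <;> simp
    · rw [RingHom.mem_ker, phi_kap]
      exact h1
  · change coeff _ (X i * p) = 0
    rw [coeff_X_mul']
    split_ifs with h
    · have hi : i = n - 1 := by simpa using h
      obtain rfl : b = 0 := by omega
      rw [Phi_inj hp (eq_zero_of_mem_J (by omega) h1 h2), coeff_zero]
    · rfl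

lemma comp_mem_W {d : ℕ} (n : ℕ) {p : MvPolynomial (Fin (d / 2)) ℚ}
    (hp : p ∈ RingHom.ker (constantCoeff : MvPolynomial (Fin (d / 2)) ℚ →+* ℚ)
        * RingHom.ker (phi d)) : comp n (Phi (iota d p)) ∈ W 1 d n := by
  have h1 : RingHom.ker (constantCoeff : MvPolynomial (Fin (d / 2)) ℚ →+* ℚ)
      ≤ Ideal.span (X '' Set.univ) := by
    intro x hx
    rw [mem_ideal_span_X_image]
    intro s hs
    by_contra hc
    have : s = 0 := Finsupp.ext fun i => by_contra fun e => hc ⟨i, trivial, e⟩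
    rw [this, MvPolynomial.mem_support_iff] at hs
    exact hs hx
  refine Submodule.mul_induction_on (Ideal.mul_mono_left h1 hp) (fun a ha q hq => ?_)
    (fun x y hx hy => by simpa only [map_add] using add_mem hx hy)
  induction ha using Submodule.span_induction generalizing q with
  | zero => simp
  | add x y _ _ hx hy => simpa only [add_mul, map_add] using add_mem (hx q hq) (hy q hq)
  | smul c x _ hx =>
    rw [smul_eq_mul, mul_comm c, mul_assoc]
    exact hx _ (Ideal.mul_mem_left _ _ hq)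
  | mem x hx =>
    obtain ⟨i, -, rfl⟩ := hx
    have e : Phi (iota d (X i)) = dl (i + 1) := by simp [Phi, iota]
    rw [map_mul, map_mul, e, comp_mul (dl_mem_H _)]
    split_ifs with h
    · refine Submodule.subset_span ⟨i + 1, n - (i + 1), by omega, by omega, _,
        comp_mem_J _ ?_, comp_mem_H _ _, rfl⟩
      rw [J, RingHom.mem_ker, res_Phi_iota]
      exact hq
    · exact Submodule.zero_mem _

lemma sub_mem_sup {d n : ℕ} {p : MvPolynomial ℕ ℚ} (hp : p ∈ PP n) :
    Phi p - Phi (iota d (kap d p)) ∈ W 1 d n ⊔ Submodule.span ℚ {dl n} := by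
  change p.IsWeightedHomogeneous _ _ at hp
  induction hp using IsWeightedHomogeneous.induction_on with
  | zero => simp
  | add p q _ _ h1 h2 =>
    have := add_mem h1 h2
    simp only [map_add]
    convert this using 1
    ring
  | monomial s r hs =>
    by_cases h : ∀ i ∈ s.support, i < d / 2
    · have : iota d (kap d (monomial s r)) = monomial s r := by
        rw [monomial_eq, map_mul, map_mul, algHom_C, AlgHom.commutes, algebraMap_eq,
          map_finsuppProd, map_finsuppProd]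
        congr 1
        refine Finsupp.prod_congr fun i hi => ?_
        simp [kap, iota, h i hi]
      rw [this, sub_self]
      exact Submodule.zero_mem _
    push Not at h
    obtain ⟨i, hi, h⟩ := h
    rw [Finsupp.mem_support_iff] at hi
    have e1 : monomial s r = X i * monomial (s - Finsupp.single i 1) r := by
      rw [X, monomial_mul, one_mul, add_comm, Finsupp.sub_add_single_one_cancel hi]
    have e2 : kap d (X i) = 0 := by simp [kap, h]
    have e3 := Finsupp.weight_sub_single_add (w := fun i : ℕ => i + 1) hi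
    rw [e1, map_mul (kap d), e2, zero_mul, map_zero, map_zero, sub_zero, map_mul]
    have e4 : ∀ i, Phi (X i) = dl (i + 1) := fun i => by simp [Phi]
    generalize s - Finsupp.single i 1 = s' at e3
    by_cases h0 : s' = 0
    · refine Submodule.mem_sup_right ?_
      rw [h0, map_zero, zero_add, hs] at e3
      rw [h0, e4, e3, monomial_zero', algHom_C, mul_comm, ← Algebra.smul_def]
      exact Submodule.smul_mem _ _ (Submodule.mem_span_singleton_self _)
    · refine Submodule.mem_sup_left ?_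
      obtain ⟨j, hj⟩ : ∃ j, s' j ≠ 0 := by
        by_contra hc
        push Not at hc
        exact h0 (Finsupp.ext hc)
      have e5 : monomial s' r = X j * monomial (s' - Finsupp.single j 1) r := by
        rw [X, monomial_mul, one_mul, add_comm, Finsupp.sub_add_single_one_cancel hj]
      have e6 := Finsupp.weight_sub_single_add (w := fun i : ℕ => i + 1) hj
      rw [e5, map_mul, e4, e4, mul_left_comm]
      refine Submodule.subset_span ⟨j + 1, _, by omega, ?_, _,
        Ideal.mul_mem_right _ _ (dl_mem_J (by omega)),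
        mul_mem_H (dl_mem_H _) (Phi_mem_H (isWeightedHomogeneous_monomial _ _ _ rfl)), rfl⟩
      omega

lemma Psi_inj {d n : ℕ} {p : MvPolynomial (Fin (d / 2)) ℚ} (hp : p ∈ Pm d n)
    (h : Phi (iota d p) = 0) : p = 0 := by
  rw [← kap_iota p, Phi_inj (iota_mem hp) h, map_zero]

theorem minRel_zero {d n : ℕ} (h : 2 * n ≤ d) : minRel d n = 0 := by
  have : (RingHom.ker (phi d)).restrictScalars ℚ ⊓ Pm d n = ⊥ := by
    refine (Submodule.eq_bot_iff _).mpr fun p hp => Psi_inj hp.2 ?_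
    refine eq_zero_of_mem_J h ?_ (Phi_mem_H (iota_mem hp.2))
    rw [J, RingHom.mem_ker, res_Phi_iota]
    exact hp.1
  rw [minRel, ← Pm, this, Submodule.map_bot, finrank_bot]

theorem minRel_add {d n : ℕ} (h : d < 2 * n) :
    minRel d n + finrank ℚ (W 1 d n) + 1 = finrank ℚ (W 0 d n) := by
  rw [W_zero]
  have hfin : FiniteDimensional ℚ (Pm d n) :=
    Module.Finite.iff_fg.mpr (weightedHomogeneousSubmodule_fg _ _ (fun _ => by omega) n)
  have hfin' : FiniteDimensional ℚ
      ((RingHom.ker (phi d)).restrictScalars ℚ ⊓ Pm d n : Submodule ℚ _) :=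
    Submodule.finiteDimensional_of_le (S₂ := Pm d n) inf_le_right
  have hV : ((RingHom.ker (phi d)).restrictScalars ℚ ⊓ Pm d n).map
      (Phi.comp (iota d)).toLinearMap ≤ JH d n := by
    rintro _ ⟨p, hp, rfl⟩
    refine ⟨?_, Phi_mem_H (iota_mem hp.2)⟩
    change res d (Phi (iota d p)) = 0
    rw [res_Phi_iota]
    exact hp.1
  refine dim_count _ (Phi.comp (iota d)).toLinearMap
    ((RingHom.ker (phi d)).restrictScalars ℚ ⊓ Pm d n) (W 1 d n) (JH d n) (dl n)
    (fun p hp => Psi_inj hp.2) (le_antisymm ?_ ?_) (le_antisymm ?_ ?_) ?_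
  · rintro _ ⟨p, ⟨h1, h2⟩, rfl⟩
    refine ⟨⟨p, h1, rfl⟩, ?_⟩
    have h3 := comp_mem_W n (Ideal.Quotient.eq_zero_iff_mem.mp h2)
    rwa [comp_eq (Phi_mem_H (iota_mem h1.2))] at h3
  · rintro _ ⟨⟨p, h1, rfl⟩, h2⟩
    refine ⟨p, ⟨h1, Ideal.Quotient.eq_zero_iff_mem.mpr ?_⟩, rfl⟩
    obtain ⟨z, ⟨⟨h3, h4⟩, -⟩, h5⟩ := W_le_map d n h2
    have h6 : iota d p - z = 0 := Phi_inj (sub_mem (iota_mem h1.2) h3) (by
      rw [map_sub, sub_eq_zero]; exact h5.symm)
    rw [← kap_iota p, sub_eq_zero.mp h6]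
    exact h4
  · intro F hF
    obtain ⟨p, hp, rfl⟩ := Phi_surj n F hF.2
    rw [sup_assoc, ← add_sub_cancel (Phi (iota d (kap d p))) (Phi p)]
    refine add_mem (Submodule.mem_sup_left ⟨kap d p, ⟨?_, kap_mem hp⟩, rfl⟩)
      (Submodule.mem_sup_right (sub_mem_sup hp))
    change phi d (kap d p) = 0
    rw [phi_kap]
    exact hF.1
  · exact sup_le (sup_le hV (W_le 1 d n))
      ((Submodule.span_singleton_le_iff_mem _ _).mpr ⟨dl_mem_J (by omega), dl_mem_H n⟩)
  · intro hc
    obtain ⟨_, ⟨p, hp, rfl⟩, w, hw, e⟩ := Submodule.mem_sup.mp hc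
    obtain ⟨z, ⟨⟨h3, -⟩, h4⟩, rfl⟩ := W_le_map d n hw
    obtain ⟨k, rfl⟩ : ∃ k, n = k + 1 := ⟨n - 1, by omega⟩
    have h6 : iota d p + z - X k = 0 := Phi_inj (sub_mem (add_mem (iota_mem hp.2) h3)
      (isWeightedHomogeneous_X ℚ _ k)) (by
        rw [map_sub, sub_eq_zero, map_add]
        exact e.trans (by simp [Phi]))
    have h7 := congrArg (coeff (Finsupp.single k 1)) h6
    have h8 : coeff (Finsupp.single k 1) z = 0 := h4
    have h9 : coeff (Finsupp.single k 1) (iota d p) = 0 := by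
      refine coeff_rename_eq_zero _ _ _ fun u hu => ?_
      have := congrArg (fun s => s k) hu
      rw [Finsupp.mapDomain_of_notMem_range] at this
      · simp at this
      · rintro ⟨i, rfl⟩
        have := i.2
        omega
    simp [h8, h9] at h7

end Pool.Agent.MP_15ac55_ag

end

section

/-!
Stabilisation along a diagonal.
-/

set_option autoImplicit false

open Finset Module Polynomial

namespace Pool.Agent.MP_15ac55_ag

lemma Valid.add_rep {μ : Multiset ℕ} (h : Valid μ) (a : ℕ) :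
    Valid (μ + Multiset.replicate a 2) := fun x hx => by
  rcases Multiset.mem_add.mp hx with hx | hx
  · exact h x hx
  · exact (Multiset.eq_of_mem_replicate hx).ge

lemma add_rep_succ (μ : Multiset ℕ) (a : ℕ) :
    μ + Multiset.replicate (a + 1) 2 = 2 ::ₘ (μ + Multiset.replicate a 2) := by
  rw [Multiset.replicate_succ, Multiset.add_cons]

lemma isPoly_val (ν τ : Multiset ℕ) (hτ : Valid τ) (i : ℕ) : ∀ a b : ℕ, IsPoly fun k =>
    val (dl i * K (ν + Multiset.replicate (a + k) 2)) (τ + Multiset.replicate (b + k) 2) := by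
  induction i with
  | zero =>
    intro a b
    refine IsPoly.of_diff (g := fun _ => 0) ⟨0, by simp⟩ fun k => ?_
    rw [← add_assoc, ← add_assoc, add_rep_succ, add_rep_succ, val_mul_cons _ _ (hτ.add_rep _),
      der_K_cons, show der (dl 0) = 0 from der_K_zero]
    simp
  | succ i ih =>
    intro a b
    refine IsPoly.of_diff (ih (a + 1) b) fun k => ?_
    rw [← add_assoc, ← add_assoc, add_rep_succ τ, val_mul_cons _ _ (hτ.add_rep _),
      show der (dl (i + 1)) = dl i from der_K_cons (Multiset.replicate i 2), add_right_comm a 1 k]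
    congr 1
    rw [add_rep_succ, der_K_cons]

/-- The excess of a cycle type. -/
def exc (μ : Multiset ℕ) : ℕ := (μ.map (· - 2)).sum

lemma Valid.exc {μ : Multiset ℕ} (h : Valid μ) : μ.sum + exc μ = 2 * nrm μ := by
  have h1 := h.sum_map_sub
  have h2 := h.two_mul_card_le
  rw [Pool.Agent.MP_15ac55_ag.exc, nrm]
  omega

lemma exc_add_rep (μ : Multiset ℕ) (a : ℕ) : exc (μ + Multiset.replicate a 2) = exc μ := by
  simp [exc]

lemma Valid.nrm_add_rep {μ : Multiset ℕ} (h : Valid μ) (a : ℕ) :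
    nrm (μ + Multiset.replicate a 2) = nrm μ + a := by
  have h2 := h.two_mul_card_le
  simp [nrm]
  omega

lemma nrm_le_exc {μ : Multiset ℕ} (h : ∀ a ∈ μ, 3 ≤ a) : nrm μ ≤ 2 * exc μ := by
  have h1 := Multiset.card_nsmul_le_sum (s := μ) (a := 3) h
  have h2 : Valid μ := fun a ha => by have := h a ha; omega
  have h3 := h2.exc
  rw [nrm] at h3 ⊢
  rw [smul_eq_mul] at h1
  omega

/-- Cores of excess less than `e`. -/
def cores (e : ℕ) : Finset (Multiset ℕ) :=
  ((range (2 * e)).biUnion types).filter fun ν => exc ν < e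

lemma exists_core {e : ℕ} {μ : Multiset ℕ} (h : Valid μ) (he : exc μ < e) :
    ∃ ν ∈ cores e, μ = ν + Multiset.replicate (nrm μ - nrm ν) 2 ∧ exc ν = exc μ := by
  have h1 : μ = μ.filter (fun a => ¬ a = 2) + Multiset.replicate (μ.count 2) 2 := by
    rw [← Multiset.filter_eq', add_comm, Multiset.filter_add_not]
  set ν := μ.filter (fun a => ¬ a = 2) with hν
  have h2 : ∀ a ∈ ν, 3 ≤ a := fun a ha => by
    rw [hν, Multiset.mem_filter] at ha
    have := h a ha.1
    omega
  have h3 : Valid ν := fun a ha => by have := h2 a ha; omega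
  have h4 : exc μ = exc ν := by rw [h1, exc_add_rep]
  have h5 : nrm μ = nrm ν + μ.count 2 := by
    conv_lhs => rw [h1]
    exact h3.nrm_add_rep _
  have h6 := nrm_le_exc h2
  refine ⟨ν, mem_filter.mpr ⟨mem_biUnion.mpr ⟨nrm ν, mem_range.mpr (by omega),
    mem_types.mpr ⟨h3, rfl⟩⟩, by omega⟩, ?_, h4.symm⟩
  rw [h5, Nat.add_sub_cancel_left]
  exact h1

lemma mem_cores {e : ℕ} {ν : Multiset ℕ} (h : ν ∈ cores e) : Valid ν ∧ nrm ν < 2 * e := by
  obtain ⟨j, h1, h2⟩ := mem_biUnion.mp (mem_filter.mp h).1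
  obtain ⟨h3, rfl⟩ := mem_types.mp h2
  exact ⟨h3, mem_range.mp h1⟩

lemma val_ne_zero {d n : ℕ} {F : Lam} (hF : F ∈ JH d n) {μ : Multiset ℕ} (hμ : Valid μ)
    (h : val F μ ≠ 0) : nrm μ = n ∧ exc μ + d < 2 * n := by
  have h1 : nrm μ = n := by_contra fun e => h (hF.2 μ hμ e)
  have h2 : ¬ μ.sum ≤ d := fun e => h (mem_J.mp hF.1 μ hμ e)
  have h3 := hμ.exc
  omega

noncomputable def ev (e n : ℕ) : Lam →ₗ[ℚ] (cores e → ℚ) :=
  LinearMap.pi fun τ => (LinearMap.proj (τ.1 + Multiset.replicate (n - nrm τ.1) 2)).comp val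

lemma ev_inj {d n e : ℕ} (he : d + e = 2 * n) {F : Lam} (hF : F ∈ JH d n) (h : ev e n F = 0) :
    F = 0 := by
  refine Lam.ext' fun μ hμ => ?_
  rw [map_zero, Pi.zero_apply]
  by_contra hc
  obtain ⟨h1, h2⟩ := val_ne_zero hF hμ hc
  obtain ⟨ν, h3, h4, -⟩ := exists_core hμ (e := e) (by omega)
  have := congrFun h ⟨ν, h3⟩
  rw [h4, h1] at hc
  exact hc this

noncomputable def gen (t e n : ℕ) (c : Fin e × cores e) : Lam :=
  if t ≤ c.1.1 ∧ exc c.2.1 + 2 * c.1.1 < e then
    dl c.1.1 * K (c.2.1 + Multiset.replicate (n - c.1.1 - nrm c.2.1) 2) else 0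

lemma W_eq_span {t d n e : ℕ} (he : d + e = 2 * n) (hn : 3 * e ≤ n) :
    W t d n = Submodule.span ℚ (Set.range (gen t e n)) := by
  refine le_antisymm (Submodule.span_le.mpr ?_) (Submodule.span_le.mpr ?_)
  · rintro _ ⟨i, b, hi, hb, j, h1, h2, rfl⟩
    rw [eq_sum_K h2, mul_sum]
    refine Submodule.sum_mem _ fun μ hμ => ?_
    by_cases h0 : val j μ = 0
    · simp [h0]
    rw [mul_smul_comm]
    have hv := (mem_types.mp hμ).1
    obtain ⟨h3, h4⟩ := val_ne_zero (d := d) (n := b) ⟨h1, h2⟩ hv h0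
    obtain ⟨ν, h5, h6, h7⟩ := exists_core hv (e := e) (by omega)
    refine Submodule.smul_mem _ _ (Submodule.subset_span ⟨(⟨i, by omega⟩, ⟨ν, h5⟩), ?_⟩)
    rw [gen, if_pos ⟨hi, by simp only; omega⟩]
    simp only
    rw [show n - i = nrm μ by omega, ← h6]
  · rintro _ ⟨⟨i, ν, hν⟩, rfl⟩
    rw [gen]
    split_ifs with h
    · obtain ⟨h1, h2⟩ := mem_cores hν
      have h3 := h1.nrm_add_rep (n - i - nrm ν)
      have h4 := (h1.add_rep (n - i - nrm ν)).exc
      have h5 := i.2
      rw [exc_add_rep] at h4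
      simp only at h
      refine Submodule.subset_span ⟨i, _, h.1, ?_, _, mem_J.mpr fun μ h6 h7 => ?_, K_mem_H _, rfl⟩
      · simp only
        omega
      · rw [val_K _ h6, if_neg]
        rintro rfl
        simp only at h7
        omega
    · exact Submodule.zero_mem _

theorem finrank_W (t d0 n0 : ℕ) (h : d0 < 2 * n0) :
    ∃ K r : ℕ, ∀ k ≥ K, finrank ℚ (W t (d0 + 2 * k) (n0 + k)) = r := by
  obtain ⟨e, he⟩ : ∃ e, d0 + e = 2 * n0 := ⟨2 * n0 - d0, by omega⟩
  have hp : ∀ (τ : cores e) (c : Fin e × cores e), ∃ p : ℚ[X], ∀ k : ℕ,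
      ev e (n0 + 3 * e + k) (gen t e (n0 + 3 * e + k) c) τ = p.eval (k : ℚ) := by
    rintro ⟨τ, hτ⟩ ⟨i, ν, hν⟩
    obtain ⟨h1, h2⟩ := mem_cores hτ
    obtain ⟨-, h3⟩ := mem_cores hν
    have h4 := i.2
    by_cases hc : t ≤ i.1 ∧ exc ν + 2 * i.1 < e
    · obtain ⟨p, hp⟩ := isPoly_val ν τ h1 i (n0 + 3 * e - i - nrm ν) (n0 + 3 * e - nrm τ)
      refine ⟨p, fun k => ?_⟩
      rw [← hp k, gen, if_pos hc]
      simp only
      rw [show n0 + 3 * e - i - nrm ν + k = n0 + 3 * e + k - i - nrm ν by omega,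
        show n0 + 3 * e - nrm τ + k = n0 + 3 * e + k - nrm τ by omega]
      rfl
    · exact ⟨0, fun k => by rw [gen, if_neg hc]; simp⟩
  choose M hM using hp
  obtain ⟨K, r, hK⟩ := rank_eventually_const (Matrix.of M)
  refine ⟨3 * e + K, r, fun k hk => ?_⟩
  obtain ⟨k, rfl⟩ : ∃ k', k = 3 * e + k' := ⟨k - 3 * e, by omega⟩
  have he' : d0 + 2 * (3 * e + k) + e = 2 * (n0 + 3 * e + k) := by omega
  rw [← hK k (by omega), Matrix.rank_eq_finrank_span_cols, ← add_assoc n0,
    ← finrank_map_of_inj (ev e (n0 + 3 * e + k)) _ fun p hp => ev_inj he' (W_le _ _ _ hp),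
    W_eq_span he' (by omega), Submodule.map_span, ← Set.range_comp]
  have : ev e (n0 + 3 * e + k) ∘ gen t e (n0 + 3 * e + k)
      = ((Matrix.of M).map (eval (k : ℚ))).col := funext fun c => funext fun τ => hM τ c k
  rw [this]

theorem main (d0 n0 : ℕ) : ∃ K c : ℕ, ∀ k ≥ K, minRel (d0 + 2 * k) (n0 + k) = c := by
  rcases le_or_gt (2 * n0) d0 with h | h
  · exact ⟨0, 0, fun k _ => minRel_zero (by omega)⟩
  obtain ⟨K₀, r₀, h₀⟩ := finrank_W 0 d0 n0 h
  obtain ⟨K₁, r₁, h₁⟩ := finrank_W 1 d0 n0 h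
  refine ⟨K₀ + K₁, r₀ - r₁ - 1, fun k hk => ?_⟩
  have := minRel_add (d := d0 + 2 * k) (n := n0 + k) (by omega)
  rw [h₀ k (by omega), h₁ k (by omega)] at this
  omega

end Pool.Agent.MP_15ac55_ag

end

section

/-!
The explicit map on coefficient functions is the algebra map `φ_d`.
-/

set_option autoImplicit false

open Finset

namespace Pool.Agent.MP_15ac55_ag

lemma iterate_grMul {d : ℕ} (x y : classFun d) (k : ℕ) : (grMul x.1)^[k] y.1 = (x ^ k * y).1 := by
  induction k with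
  | zero => simp
  | succ k ih => rw [Function.iterate_succ_apply', ih, pow_succ', mul_assoc, coe_mul' x]

lemma deltaMonomial_eq (d : ℕ) (s : Fin (d / 2) → ℕ) :
    deltaMonomial d s = (∏ i, delta d (i.val + 1) ^ s i).1 := by
  have key : ∀ l : List (Fin (d / 2)),
      l.foldr (fun i f => (grMul (deltaFun d (i.val + 1)))^[s i] f)
        (fun σ => if σ = 1 then 1 else 0) = ((l.map fun i => delta d (i.val + 1) ^ s i).prod).1 := by
    intro l
    induction l with
    | nil => funext σ; simp [coe_one', Pi.single_apply]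
    | cons i l ih =>
      rw [List.foldr_cons, ih, List.map_cons, List.prod_cons, ← iterate_grMul]
      rfl
  rw [deltaMonomial, key, Fin.prod_univ_def]

lemma phiFun_eq (d : ℕ) (p : MvPolynomial (Fin (d / 2)) ℚ) : phiFun d p = (phi d p).1 := by
  funext π
  rw [phi, MvPolynomial.aeval_def, MvPolynomial.eval₂_eq']
  simp only [← Algebra.smul_def, phiFun, deltaMonomial_eq]
  rw [Submodule.coe_sum, Finset.sum_apply]
  rfl

lemma span_eq_ker (d : ℕ) : Ideal.span {p | ∀ π, phiFun d p π = 0} = RingHom.ker (phi d) := by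
  rw [← Ideal.span_eq (RingHom.ker (phi d))]
  congr 1
  ext p
  rw [Set.mem_ofPred_eq, SetLike.mem_coe, RingHom.mem_ker, phiFun_eq]
  exact ⟨fun h => Subtype.ext (funext h), fun h π => by rw [h]; rfl⟩

lemma relDim_eq {P : Type} [CommRing P] [Algebra ℚ P] (M I : Ideal P) (V : Submodule ℚ P)
    [FiniteDimensional ℚ V] : relDim M I V = Module.finrank ℚ
      (Submodule.map (Ideal.Quotient.mkₐ ℚ (M * I)).toLinearMap (I.restrictScalars ℚ ⊓ V)) := by
  have : FiniteDimensional ℚ (I.restrictScalars ℚ ⊓ V : Submodule ℚ P) :=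
    Submodule.finiteDimensional_of_le (S₂ := V) inf_le_right
  have h1 := finrank_map_add ((M * I).restrictScalars ℚ).mkQ (I.restrictScalars ℚ ⊓ V)
  have h2 := finrank_map_add (Ideal.Quotient.mkₐ ℚ (M * I)).toLinearMap (I.restrictScalars ℚ ⊓ V)
  have h3 : LinearMap.ker (Ideal.Quotient.mkₐ ℚ (M * I)).toLinearMap
      = (M * I).restrictScalars ℚ := Submodule.ext fun _ => Ideal.Quotient.eq_zero_iff_mem
  rw [Submodule.ker_mkQ] at h1
  rw [h3] at h2
  rw [relDim, quotDim]
  omega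

lemma numRel_eq (d n : ℕ) : numRel d n = minRel d n := by
  have : FiniteDimensional ℚ
      (MvPolynomial.weightedHomogeneousSubmodule ℚ (fun i : Fin (d / 2) => i.val + 1) n) :=
    Module.Finite.iff_fg.mpr
      (MvPolynomial.weightedHomogeneousSubmodule_fg _ _ (fun _ => by omega) n)
  rw [numRel, span_eq_ker, relDim_eq]
  rfl

theorem main' (d0 n0 : ℕ) : ∃ K c : ℕ, ∀ k ≥ K, numRel (d0 + 2 * k) (n0 + k) = c := by
  simpa only [numRel_eq] using main d0 n0

end Pool.Agent.MP_15ac55_ag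

end
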